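import Mathlib

set_option autoImplicit false

/-!
# Project GP (MP_130bb2_pr): the Gaussian product inequality for vectors of small rank, statements

Target: for a centered Gaussian vector with covariance of rank at most `r` and real exponents
`nu_i ≥ 0` with `28 r nu_i ≤ ∑ nu_j`: `∏ E |Z_i|^(2 nu_i) ≤ E ∏ |Z_i|^(2 nu_i)`.
Idea: scaling plus Jensen's inequality give `E ∏ |Z_i|^(2 nu_i) ≥ e^(kap M) (1 + 2M/r)^(M + r/2) e^(-M)`
for unit vectors, `kap = E log g^2`, `M = ∑ nu_i`, and `E |g|^(2 nu) ≤ e^(kap nu) (1 + 14 nu)^nu`.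
-/

open MeasureTheory ProbabilityTheory
open scoped ENNReal NNReal

namespace Pool.Agent.W2helper31.GP

/-- standard Gaussian measure on `ℝ ^ r` -/
noncomputable def Gam (r : ℕ) : Measure (Fin r → ℝ) :=
  Measure.pi (fun _ : Fin r => gaussianReal 0 1)

/-- the expectation of `log g ^ 2` -/
noncomputable def kap : ℝ := ∫ x, 2 * Real.log x ∂(gaussianReal 0 1)

/-- PIECE KAP. `log |g|` is integrable and `E log g^2 ≥ -8/5`.
Proof: `gaussianReal 0 1 ≤ ofReal (2/5) • volume` as the density is at most `1/√(2π) ≤ 2/5`. On `S = Icc (-1) 1`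
the function `-log |x|` is nonnegative and `∫ x in (-1)..1, log x = -2` (`integral_log`; note
`Real.log x = log |x|`), so `∫_S -2 log x dγ ≤ (2/5) * 4 = 8/5`; outside `S` one has `0 ≤ log |x| ≤ x ^ 2`. -/
def P_KAP : Prop :=
  Integrable (fun x : ℝ => Real.log x) (gaussianReal 0 1) ∧ -(8 / 5 : ℝ) ≤ kap

/-- PIECE SMALL. `E |g|^(2 nu) ≤ 1 + kap nu + (27/5) nu^2` for `0 ≤ nu ≤ 1/2`.
Proof: the function `f x = |x|^(2 nu) - 1 - 2 nu log x` is nonnegative for `x ≠ 0` (as `e^z ≥ 1 + z`). With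
`gaussianReal 0 1 ≤ ofReal (2/5) • volume`: `∫_{[-1,1]} f dγ ≤ (2/5) ∫_{-1}^{1} f dx
= (2/5) (2/(2 nu + 1) - 2 + 4 nu) = (2/5) * 8 nu^2/(2 nu + 1) ≤ (16/5) nu^2`. For `|x| ≥ 1` let `L = log x^2 ≥ 0`,
`z = nu L`: `e^z - 1 - z ≤ z^2 e^z` (as `e^(-z) ≥ 1 - z`), `L ≤ 4 e^(L/4 - 1)` (as `u ≤ e^(u-1)`), so
`f ≤ nu^2 (16/e^2) e^(L/2) e^(nu L) ≤ (11/5) nu^2 x^2` as `nu ≤ 1/2` and `16/e^2 ≤ 11/5`; and `E g^2 = 1`. -/
def P_SMALL : Prop :=
  ∀ nu : ℝ, 0 ≤ nu → nu ≤ 1 / 2 →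
    Integrable (fun x : ℝ => |x| ^ (2 * nu)) (gaussianReal 0 1) ∧
      ∫ x, |x| ^ (2 * nu) ∂(gaussianReal 0 1) ≤ 1 + kap * nu + 27 / 5 * nu ^ 2

/-- PIECE MIDL. `E |g|^(2 nu) ≤ 1` for `0 ≤ nu ≤ 1` and `≤ (1 + 2 nu)^nu` for all `nu ≥ 0`.
Proof: (1) `y^nu ≤ 1 + nu (y - 1)` for `y = x^2` and `E g^2 = 1`. (2) For `u = x^2/(2 nu + 1) ≥ 0`: `u ≤ e^(u-1)`,
so `x^(2 nu) ≤ ((2 nu + 1)/e)^nu e^(nu x^2/(2 nu + 1))`, and `E e^(nu g^2/(2 nu + 1)) = (2 nu + 1)^(1/2) ≤ e^nu`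
(the integrand times the density is `√(2 nu + 1)` times the density of `gaussianReal 0 (2 nu + 1)`). -/
def P_MIDL : Prop :=
  ∀ nu : ℝ, 0 ≤ nu →
    Integrable (fun x : ℝ => |x| ^ (2 * nu)) (gaussianReal 0 1) ∧
      (nu ≤ 1 → ∫ x, |x| ^ (2 * nu) ∂(gaussianReal 0 1) ≤ 1) ∧
      ∫ x, |x| ^ (2 * nu) ∂(gaussianReal 0 1) ≤ (1 + 2 * nu) ^ nu

/-- PIECE ONE (assembly of KAP, SMALL, MIDL). Proof: `nu ≤ 29/100`: `1 + z ≤ e^z` and
`e^(27/5 nu) ≤ 1 + 14 nu` (convexity of exp on `[0, 8/5]`, `e^(8/5) ≤ 496/100` because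
`e^8 ≤ (496/100)^5`); `29/100 ≤ nu ≤ 1`: `1 + 14 nu ≥ 506/100 ≥ e^(8/5) ≥ e^(-kap)`;
`nu ≥ 1`: `(1 + 2 nu) e^(8/5) ≤ 1 + 14 nu`. -/
def P_ONE : Prop :=
  ∀ nu : ℝ, 0 ≤ nu →
    ∫ x, |x| ^ (2 * nu) ∂(gaussianReal 0 1) ≤ Real.exp (kap * nu) * (1 + 14 * nu) ^ nu

/-- PIECE SCAL. The law of `√t g` has the density `t^(-r/2) exp ((1 - 1/t)/2 |x|^2)` with respect to
the law of `g`. Proof: `(Gam r).map (√t • ·) = Measure.pi (gaussianReal 0 t)` (`Measure.pi_map_pi`,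
`gaussianReal_map_const_mul`); `gaussianReal 0 t = (gaussianReal 0 1).withDensity q`,
`q x = ofReal (t^(-1/2) exp ((1 - 1/t)/2 x^2))` (compare the densities with respect to `volume`);
`(Gam r).withDensity (∏ q (x j)) = Measure.pi (withDensity q)` by `Measure.pi_eq`, where the integral of a
product over a box is computed with `lintegral_prod_eq_prod_lintegral_of_indepFun` and `iIndepFun_pi`. -/
def P_SCAL : Prop :=
  ∀ (r : ℕ) (t : ℝ), 0 < t → ∀ F : (Fin r → ℝ) → ℝ≥0∞, Measurable F →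
    ∫⁻ x, F (Real.sqrt t • x) ∂(Gam r) =
      ∫⁻ x, F x * ENNReal.ofReal (t ^ (-((r : ℝ) / 2)) *
        Real.exp ((1 - 1 / t) / 2 * ∑ j, x j ^ 2)) ∂(Gam r)

/-- PIECE MARG. A unit linear form of `g` is standard normal, and `E |g|^2 = r`.
Proof: `IsGaussian.map_eq_gaussianReal` or characteristic functions, see `variance_dual_stdGaussian`. -/
def P_MARG : Prop :=
  (∀ (r : ℕ) (b : Fin r → ℝ), ∑ j, b j ^ 2 = 1 →
    (Gam r).map (fun x => ∑ j, b j * x j) = gaussianReal 0 1) ∧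
  ∀ r : ℕ, Integrable (fun x : Fin r → ℝ => ∑ j, x j ^ 2) (Gam r) ∧
    ∫ x, ∑ j, x j ^ 2 ∂(Gam r) = r

/-- PIECE REP. A centered Gaussian measure on `ℝ^d` with covariance matrix of rank at most `r` is
the law of linear forms of a standard Gaussian vector in `ℝ^r`. Proof: the covariance matrix `S` is
positive semidefinite, `S = B^H B`; the columns of `B` span a space `V` of dimension `rank B = rank S ≤ r`
of `EuclideanSpace ℝ (Fin d)`; let `b i` be the coordinates of the `i`-th column in an orthonormal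
basis of `V`, filled up by zeros; so `∑ j, b i j * b k j = S i k`. Both measures are Gaussian and centered with
the same variance of every linear form: `IsGaussian.charFunDual_eq`, `Measure.ext_of_charFunDual`. -/
def P_REP : Prop :=
  ∀ (d r : ℕ) (mu : Measure (Fin d → ℝ)), IsGaussian mu → ∫ x, x ∂mu = 0 →
    (Matrix.of fun i k : Fin d => ∫ x, x i * x k ∂mu).rank ≤ r →
    ∃ b : Fin d → Fin r → ℝ, mu = (Gam r).map (fun x i => ∑ j, b i j * x j)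

end Pool.Agent.W2helper31.GP
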