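import Mathlib
import Pool.Agent.W2helper31.GP.Stm

set_option autoImplicit false

/-!
# Scaling and Jensen's inequality
-/

open MeasureTheory ProbabilityTheory
open scoped ENNReal NNReal

namespace Pool.Agent.W2helper31.GP

instance (r : ℕ) : IsProbabilityMeasure (Gam r) := by
  unfold Gam
  infer_instance

/-- the linear form with coefficients `b` -/
def lf {r : ℕ} (b x : Fin r → ℝ) : ℝ := ∑ j, b j * x j

theorem lf_meas {r : ℕ} (b : Fin r → ℝ) : Measurable (lf b) := by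
  unfold lf
  fun_prop

/-- the product -/
noncomputable def Pr {r d : ℕ} (b : Fin d → Fin r → ℝ) (nu : Fin d → ℝ) (x : Fin r → ℝ) : ℝ :=
  ∏ i, |lf (b i) x| ^ (2 * nu i)

theorem Pr_meas {r d : ℕ} (b : Fin d → Fin r → ℝ) (nu : Fin d → ℝ) : Measurable (Pr b nu) := by
  unfold Pr
  refine Finset.measurable_prod _ (fun i _ => ?_)
  exact ((lf_meas (b i)).abs).pow_const _

theorem Pr_nonneg {r d : ℕ} (b : Fin d → Fin r → ℝ) (nu : Fin d → ℝ) (x : Fin r → ℝ) :
    0 ≤ Pr b nu x :=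
  Finset.prod_nonneg (fun _ _ => Real.rpow_nonneg (abs_nonneg _) _)

theorem Pr_smul {r d : ℕ} (b : Fin d → Fin r → ℝ) (nu : Fin d → ℝ) (c : ℝ) (hc : 0 < c)
    (x : Fin r → ℝ) : Pr b nu (c • x) = c ^ (∑ i, 2 * nu i) * Pr b nu x := by
  unfold Pr
  rw [Real.rpow_sum_of_pos hc, ← Finset.prod_mul_distrib]
  refine Finset.prod_congr rfl (fun i _ => ?_)
  have h1 : lf (b i) (c • x) = c * lf (b i) x := by
    unfold lf
    rw [Finset.mul_sum]
    refine Finset.sum_congr rfl (fun j _ => ?_)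
    simp only [Pi.smul_apply, smul_eq_mul]
    ring
  rw [h1, abs_mul, abs_of_pos hc, Real.mul_rpow hc.le (abs_nonneg _)]

theorem lf_sq_le {r : ℕ} (b x : Fin r → ℝ) (hb : ∑ j, b j ^ 2 = 1) :
    |lf b x| ^ 2 ≤ ∑ j, x j ^ 2 := by
  rw [sq_abs]
  have := Finset.sum_mul_sq_le_sq_mul_sq Finset.univ b x
  rw [hb, one_mul] at this
  exact this

theorem Pr_le {r d : ℕ} (b : Fin d → Fin r → ℝ) (hb : ∀ i, ∑ j, b i j ^ 2 = 1) (nu : Fin d → ℝ)
    (hnu : ∀ i, 0 ≤ nu i) (x : Fin r → ℝ) : Pr b nu x ≤ (∑ j, x j ^ 2) ^ (∑ i, nu i) := by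
  have h0 : 0 ≤ ∑ j, x j ^ 2 := Finset.sum_nonneg (fun _ _ => sq_nonneg _)
  have h1 : (∑ j, x j ^ 2) ^ (∑ i, nu i) = ∏ i, (∑ j, x j ^ 2) ^ nu i := by
    rcases h0.lt_or_eq with h | h
    · rw [Real.rpow_sum_of_pos h]
    · rw [← h]
      by_cases hz : ∀ i, nu i = 0
      · simp [hz]
      · push Not at hz
        obtain ⟨i, hi⟩ := hz
        have hs : ∑ i, nu i ≠ 0 := by
          have : 0 < ∑ i, nu i :=
            Finset.sum_pos' (fun i _ => hnu i) ⟨i, Finset.mem_univ i, lt_of_le_of_ne (hnu i) (Ne.symm hi)⟩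
          exact this.ne'
        rw [Real.zero_rpow hs, eq_comm]
        exact Finset.prod_eq_zero (Finset.mem_univ i) (Real.zero_rpow hi)
  rw [h1]
  unfold Pr
  refine Finset.prod_le_prod (fun i _ => Real.rpow_nonneg (abs_nonneg _) _) (fun i _ => ?_)
  rw [Real.rpow_mul (abs_nonneg _), Real.rpow_two]
  exact Real.rpow_le_rpow (sq_nonneg _) (lf_sq_le (b i) x (hb i)) (hnu i)

theorem pow_exp_le (y s M : ℝ) (hy : 0 ≤ y) (hs : 0 < s) (hM : 0 < M) :
    y ^ M * Real.exp (-(s / 2) * y) ≤ (2 * M / s) ^ M * Real.exp (-M) := by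
  have hu : 0 ≤ s * y / (2 * M) := by positivity
  have h1 : (s * y / (2 * M)) ^ M ≤ Real.exp (M * (s * y / (2 * M) - 1)) := by
    have h2 : s * y / (2 * M) ≤ Real.exp (s * y / (2 * M) - 1) := by
      have := Real.add_one_le_exp (s * y / (2 * M) - 1)
      linarith
    calc (s * y / (2 * M)) ^ M ≤ (Real.exp (s * y / (2 * M) - 1)) ^ M :=
          Real.rpow_le_rpow hu h2 hM.le
      _ = Real.exp (M * (s * y / (2 * M) - 1)) := by
          rw [← Real.exp_mul, mul_comm]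
  have h3 : y = (2 * M / s) * (s * y / (2 * M)) := by
    field_simp
  have h4 : y ^ M = (2 * M / s) ^ M * (s * y / (2 * M)) ^ M := by
    rw [← Real.mul_rpow (by positivity) hu, ← h3]
  rw [h4, mul_assoc]
  apply mul_le_mul_of_nonneg_left _ (Real.rpow_nonneg (by positivity) _)
  calc (s * y / (2 * M)) ^ M * Real.exp (-(s / 2) * y)
      ≤ Real.exp (M * (s * y / (2 * M) - 1)) * Real.exp (-(s / 2) * y) :=
        mul_le_mul_of_nonneg_right h1 (Real.exp_pos _).le
    _ = Real.exp (-M) := by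
        rw [← Real.exp_add]
        congr 1
        field_simp
        ring

theorem lf_ne {r : ℕ} (hM : P_MARG) (b : Fin r → ℝ) (hb : ∑ j, b j ^ 2 = 1) :
    ∀ᵐ x ∂(Gam r), lf b x ≠ 0 := by
  have h1 := hM.1 r b hb
  have h2 : ∀ᵐ y ∂(gaussianReal 0 1), y ≠ 0 := by
    rw [ae_iff]
    haveI : NullSingletonClass (gaussianReal 0 1) := nullSingletonClass_gaussianReal one_ne_zero
    have h3 : {a : ℝ | ¬ a ≠ 0} = {0} := by
      ext a
      simp
    rw [h3]
    exact measure_singleton 0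
  rw [← h1] at h2
  exact (ae_map_iff (lf_meas b).aemeasurable (by measurability)).1 h2

theorem log_lf {r : ℕ} (hM : P_MARG) (hK : P_KAP) (b : Fin r → ℝ) (hb : ∑ j, b j ^ 2 = 1) :
    Integrable (fun x => Real.log (lf b x)) (Gam r) ∧
      ∫ x, Real.log (lf b x) ∂(Gam r) = kap / 2 := by
  have h1 := hM.1 r b hb
  have hmp : (Gam r).map (lf b) = gaussianReal 0 1 := h1
  have h2 : Integrable (fun y => Real.log y) ((Gam r).map (lf b)) := by
    rw [hmp]
    exact hK.1
  constructor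
  · exact (integrable_map_measure (Real.measurable_log.aestronglyMeasurable)
      (lf_meas b).aemeasurable).1 h2
  · have h3 : ∫ x, Real.log (lf b x) ∂(Gam r) = ∫ y, Real.log y ∂((Gam r).map (lf b)) :=
      (integral_map (lf_meas b).aemeasurable (Real.measurable_log.aestronglyMeasurable)).symm
    rw [h3, hmp]
    unfold kap
    rw [integral_const_mul]
    ring

theorem jensen {r d : ℕ} (hM : P_MARG) (hK : P_KAP) (b : Fin d → Fin r → ℝ)
    (hb : ∀ i, ∑ j, b i j ^ 2 = 1) (nu : Fin d → ℝ) (s : ℝ)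
    (hG : Integrable (fun x => Pr b nu x * Real.exp (-(s / 2) * ∑ j, x j ^ 2)) (Gam r)) :
    Real.exp (kap * (∑ i, nu i) - s / 2 * r) ≤
      ∫ x, Pr b nu x * Real.exp (-(s / 2) * ∑ j, x j ^ 2) ∂(Gam r) := by
  set h : (Fin r → ℝ) → ℝ := fun x => (∑ i, 2 * nu i * Real.log (lf (b i) x)) +
    (-(s / 2)) * ∑ j, x j ^ 2 with hh
  have hi1 : ∀ i ∈ (Finset.univ : Finset (Fin d)),
      Integrable (fun x => 2 * nu i * Real.log (lf (b i) x)) (Gam r) :=
    fun i _ => (log_lf hM hK (b i) (hb i)).1.const_mul _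
  have hi2 : Integrable (fun x : Fin r → ℝ => (-(s / 2)) * ∑ j, x j ^ 2) (Gam r) :=
    (hM.2 r).1.const_mul _
  have hi : Integrable h (Gam r) := (integrable_finsetSum _ hi1).add hi2
  have hint : ∫ x, h x ∂(Gam r) = kap * (∑ i, nu i) - s / 2 * r := by
    rw [hh, integral_add (integrable_finsetSum _ hi1) hi2, integral_finsetSum _ hi1,
      integral_const_mul, (hM.2 r).2]
    have : ∀ i ∈ (Finset.univ : Finset (Fin d)),
        ∫ x, 2 * nu i * Real.log (lf (b i) x) ∂(Gam r) = kap * nu i := by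
      intro i _
      rw [integral_const_mul, (log_lf hM hK (b i) (hb i)).2]
      ring
    rw [Finset.sum_congr rfl this, Finset.mul_sum]
    ring
  have hae : ∀ᵐ x ∂(Gam r), Real.exp (h x) = Pr b nu x * Real.exp (-(s / 2) * ∑ j, x j ^ 2) := by
    have h1 : ∀ᵐ x ∂(Gam r), ∀ i, lf (b i) x ≠ 0 :=
      ae_all_iff.2 (fun i => lf_ne hM (b i) (hb i))
    filter_upwards [h1] with x hx
    simp only [hh]
    rw [Real.exp_add, Real.exp_sum]
    congr 1
    unfold Pr
    refine Finset.prod_congr rfl (fun i _ => ?_)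
    rw [Real.rpow_def_of_pos (abs_pos.2 (hx i)), Real.log_abs, mul_comm]
  have hexp : Integrable (Real.exp ∘ h) (Gam r) :=
    hG.congr (hae.mono (fun x hx => by simpa using hx.symm))
  have hj := convexOn_exp.map_integral_le Real.continuous_exp.continuousOn isClosed_univ
    (Filter.Eventually.of_forall (fun x => Set.mem_univ (h x))) hi hexp
  rw [hint] at hj
  refine le_trans hj (le_of_eq ?_)
  exact integral_congr_ae hae

theorem lower {r d : ℕ} (hS : P_SCAL) (hM : P_MARG) (hK : P_KAP) (hr : 0 < r)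
    (b : Fin d → Fin r → ℝ) (hb : ∀ i, ∑ j, b i j ^ 2 = 1) (nu : Fin d → ℝ)
    (hnu : ∀ i, 0 ≤ nu i) (hpos : 0 < ∑ i, nu i) :
    Integrable (Pr b nu) (Gam r) ∧
      Real.exp (kap * (∑ i, nu i)) * ((1 + 2 * (∑ i, nu i) / r) ^ ((∑ i, nu i) + r / 2)
        * Real.exp (-(∑ i, nu i))) ≤ ∫ x, Pr b nu x ∂(Gam r) := by
  set M := ∑ i, nu i with hMd
  have hr' : (0 : ℝ) < r := by exact_mod_cast hr
  set s : ℝ := 2 * M / r with hs
  have hs0 : 0 < s := by positivity
  have h1s : 0 < 1 + s := by positivity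
  set G : (Fin r → ℝ) → ℝ := fun x => Pr b nu x * Real.exp (-(s / 2) * ∑ j, x j ^ 2) with hG
  have hGm : Measurable G := by
    refine (Pr_meas b nu).mul (Real.measurable_exp.comp ?_)
    fun_prop
  have hG0 : ∀ x, 0 ≤ G x := fun x => mul_nonneg (Pr_nonneg _ _ _) (Real.exp_pos _).le
  have hGb : ∀ x, G x ≤ (2 * M / s) ^ M * Real.exp (-M) := by
    intro x
    refine le_trans (mul_le_mul_of_nonneg_right (Pr_le b hb nu hnu x) (Real.exp_pos _).le) ?_
    exact pow_exp_le _ s M (Finset.sum_nonneg (fun _ _ => sq_nonneg _)) hs0 hpos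
  have hGi : Integrable G (Gam r) := by
    refine Integrable.of_bound hGm.aestronglyMeasurable ((2 * M / s) ^ M * Real.exp (-M))
      (Filter.Eventually.of_forall (fun x => ?_))
    rw [Real.norm_eq_abs, abs_of_nonneg (hG0 x)]
    exact hGb x
  -- scaling
  set t : ℝ := 1 / (1 + s) with ht
  have ht0 : 0 < t := by positivity
  have hsc := hS r t ht0 (fun x => ENNReal.ofReal (Pr b nu x)) (Pr_meas b nu).ennreal_ofReal
  have hc1 : (1 - 1 / t) / 2 = -(s / 2) := by
    rw [ht]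
    field_simp
    ring
  have hL : ∫⁻ x, ENNReal.ofReal (Pr b nu (Real.sqrt t • x)) ∂(Gam r)
      = ENNReal.ofReal (t ^ M) * ∫⁻ x, ENNReal.ofReal (Pr b nu x) ∂(Gam r) := by
    rw [← lintegral_const_mul _ (Pr_meas b nu).ennreal_ofReal]
    refine lintegral_congr (fun x => ?_)
    rw [Pr_smul b nu _ (Real.sqrt_pos.2 ht0), ENNReal.ofReal_mul (by positivity)]
    congr 2
    rw [← Finset.mul_sum, Real.rpow_mul (Real.sqrt_nonneg _), Real.rpow_two, Real.sq_sqrt ht0.le]
  have hR : ∫⁻ x, ENNReal.ofReal (Pr b nu x) * ENNReal.ofReal (t ^ (-((r : ℝ) / 2)) *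
        Real.exp ((1 - 1 / t) / 2 * ∑ j, x j ^ 2)) ∂(Gam r)
      = ENNReal.ofReal (t ^ (-((r : ℝ) / 2))) * ∫⁻ x, ENNReal.ofReal (G x) ∂(Gam r) := by
    rw [← lintegral_const_mul _ hGm.ennreal_ofReal]
    refine lintegral_congr (fun x => ?_)
    rw [← ENNReal.ofReal_mul (Pr_nonneg _ _ _), ← ENNReal.ofReal_mul (by positivity), hc1]
    congr 1
    simp only [hG]
    ring
  have hsc' : ENNReal.ofReal (t ^ M) * ∫⁻ x, ENNReal.ofReal (Pr b nu x) ∂(Gam r)
      = ENNReal.ofReal (t ^ (-((r : ℝ) / 2)) * ∫ x, G x ∂(Gam r)) := by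
    rw [← hL]
    refine hsc.trans ?_
    rw [hR, ENNReal.ofReal_mul (by positivity), ofReal_integral_eq_lintegral_ofReal hGi
      (Filter.Eventually.of_forall hG0)]
  have htM : 0 < t ^ M := Real.rpow_pos_of_pos ht0 _
  have hfin : ∫⁻ x, ENNReal.ofReal (Pr b nu x) ∂(Gam r) ≠ ⊤ := by
    intro htop
    rw [htop, ENNReal.mul_top (by simpa using htM)] at hsc'
    exact ENNReal.ofReal_ne_top hsc'.symm
  have hPi : Integrable (Pr b nu) (Gam r) := by
    refine ⟨(Pr_meas b nu).aestronglyMeasurable, ?_⟩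
    rw [hasFiniteIntegral_iff_ofReal (Filter.Eventually.of_forall (Pr_nonneg b nu))]
    exact lt_top_iff_ne_top.2 hfin
  refine ⟨hPi, ?_⟩
  rw [← ofReal_integral_eq_lintegral_ofReal hPi (Filter.Eventually.of_forall (Pr_nonneg b nu)),
    ← ENNReal.ofReal_mul htM.le, ENNReal.ofReal_eq_ofReal_iff
      (mul_nonneg htM.le (integral_nonneg (Pr_nonneg b nu)))
      (mul_nonneg (by positivity) (integral_nonneg hG0))] at hsc'
  have hj := jensen hM hK b hb nu s hGi
  have hsr : s / 2 * r = M := by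
    rw [hs]
    field_simp
  rw [hsr] at hj
  have hP : ∫ x, Pr b nu x ∂(Gam r) = (1 + s) ^ (M + r / 2) * ∫ x, G x ∂(Gam r) := by
    have h1 : (1 + s) ^ (M + (r : ℝ) / 2) = (t ^ M)⁻¹ * t ^ (-((r : ℝ) / 2)) := by
      have h2 : 1 + s = t⁻¹ := by rw [ht, one_div, inv_inv]
      rw [h2, Real.rpow_add (by positivity), Real.inv_rpow ht0.le, Real.inv_rpow ht0.le,
        Real.rpow_neg ht0.le]
    rw [h1, mul_assoc, ← hsc']
    field_simp
  rw [hP]
  calc Real.exp (kap * M) * ((1 + s) ^ (M + (r : ℝ) / 2) * Real.exp (-M))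
      = (1 + s) ^ (M + (r : ℝ) / 2) * Real.exp (kap * M - M) := by
        rw [sub_eq_add_neg, Real.exp_add]
        ring
    _ ≤ _ := mul_le_mul_of_nonneg_left hj (by positivity)

end Pool.Agent.W2helper31.GP
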