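import Mathlib
import Pool.Agent.W2helper31.GP.Jen

set_option autoImplicit false

/-!
# The Gaussian product inequality for few dimensions: assembly
-/

open MeasureTheory ProbabilityTheory
open scoped ENNReal NNReal

namespace Pool.Agent.W2helper31.GP

theorem num_log (x : ℝ) (hx : 0 < x) :
    Real.log (1 + x / 4) + 1 ≤ (1 + 1 / x) * Real.log (1 + x) := by
  rcases le_or_gt x 8 with h8 | h8
  · have h1 : Real.log (1 + x / 4) ≤ 1 / 2 * Real.log (1 + x) := by
      have h2 : 2 * Real.log (1 + x / 4) ≤ Real.log (1 + x) := by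
        have h3 : 2 * Real.log (1 + x / 4) = Real.log ((1 + x / 4) ^ 2) := by
          rw [Real.log_pow]
          norm_num
        rw [h3]
        apply Real.log_le_log (by positivity)
        nlinarith
      linarith
    have h4 : 2 * x / (x + 2) ≤ Real.log (1 + x) := Real.le_log_one_add_of_nonneg hx.le
    have h5 : 1 ≤ (1 / 2 + 1 / x) * Real.log (1 + x) := by
      have h6 : (1 / 2 + 1 / x) * (2 * x / (x + 2)) = 1 := by
        field_simp
      calc (1 : ℝ) = (1 / 2 + 1 / x) * (2 * x / (x + 2)) := h6.symm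
        _ ≤ _ := mul_le_mul_of_nonneg_left h4 (by positivity)
    have h7 : (1 + 1 / x) * Real.log (1 + x)
        = 1 / 2 * Real.log (1 + x) + (1 / 2 + 1 / x) * Real.log (1 + x) := by ring
    rw [h7]
    linarith
  · have h0 : 0 ≤ Real.log (1 + x) := Real.log_nonneg (by linarith)
    have h1 : Real.log (1 + x / 4) + 1 ≤ Real.log (1 + x) := by
      have h2 : Real.log (1 + x / 4) + 1 = Real.log ((1 + x / 4) * Real.exp 1) := by
        rw [Real.log_mul (by positivity) (Real.exp_pos 1).ne', Real.log_exp]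
      rw [h2]
      apply Real.log_le_log (by positivity)
      have he := Real.exp_one_lt_d9
      nlinarith
    have h3 : Real.log (1 + x) ≤ (1 + 1 / x) * Real.log (1 + x) := by
      have : 0 ≤ 1 / x * Real.log (1 + x) := by positivity
      linarith
    linarith

theorem num_pow (M r : ℝ) (hM : 0 < M) (hr : 0 < r) :
    (1 + (2 * M / r) / 4) ^ M ≤ (1 + 2 * M / r) ^ (M + r / 2) * Real.exp (-M) := by
  have hx : 0 < 2 * M / r := by positivity
  have h1 := num_log (2 * M / r) hx
  have h2 : (1 + (2 * M / r) / 4) ^ M = Real.exp (M * Real.log (1 + (2 * M / r) / 4)) := by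
    rw [Real.rpow_def_of_pos (by positivity), mul_comm]
  have h3 : (1 + 2 * M / r) ^ (M + r / 2) * Real.exp (-M)
      = Real.exp ((M + r / 2) * Real.log (1 + 2 * M / r) - M) := by
    rw [Real.rpow_def_of_pos (by positivity), ← Real.exp_add]
    congr 1
    ring
  rw [h2, h3]
  apply Real.exp_le_exp.2
  have h4 : M * ((1 + 1 / (2 * M / r)) * Real.log (1 + 2 * M / r))
      = (M + r / 2) * Real.log (1 + 2 * M / r) := by
    field_simp
  have h5 := mul_le_mul_of_nonneg_left h1 hM.le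
  rw [h4] at h5
  linarith

/-- the moments of a standard normal variable -/
noncomputable def mom (nu : ℝ) : ℝ := ∫ x, |x| ^ (2 * nu) ∂(gaussianReal 0 1)

theorem mom_lf (hM : P_MARG) {r : ℕ} (b : Fin r → ℝ) (hb : ∑ j, b j ^ 2 = 1) (nu : ℝ) :
    ∫ x, |lf b x| ^ (2 * nu) ∂(Gam r) = mom nu := by
  have h1 : (Gam r).map (lf b) = gaussianReal 0 1 := hM.1 r b hb
  unfold mom
  rw [← h1, integral_map (lf_meas b).aemeasurable]
  exact (measurable_id.abs.pow_const _).aestronglyMeasurable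

theorem unit_case (hS : P_SCAL) (hM : P_MARG) (hK : P_KAP) (hO : P_ONE) {r d : ℕ} (hr : 0 < r)
    (b : Fin d → Fin r → ℝ) (hb : ∀ i, ∑ j, b i j ^ 2 = 1) (nu : Fin d → ℝ)
    (hnu : ∀ i, 0 ≤ nu i) (hpos : 0 < ∑ i, nu i) (h : ∀ i, 28 * r * nu i ≤ ∑ j, nu j) :
    ∏ i, mom (nu i) ≤ ∫ x, Pr b nu x ∂(Gam r) := by
  refine le_trans ?_ (lower hS hM hK hr b hb nu hnu hpos).2
  set M := ∑ i, nu i with hMd
  have hr' : (0 : ℝ) < r := by exact_mod_cast hr
  have h1 : ∀ i, mom (nu i) ≤ Real.exp (kap * nu i) * (1 + (2 * M / r) / 4) ^ nu i := by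
    intro i
    refine le_trans (hO (nu i) (hnu i)) ?_
    apply mul_le_mul_of_nonneg_left _ (Real.exp_pos _).le
    have h0 := hnu i
    apply Real.rpow_le_rpow (by positivity) _ (hnu i)
    have h2 : 14 * nu i ≤ (2 * M / r) / 4 := by
      rw [div_div, le_div_iff₀ (by positivity)]
      have := h i
      nlinarith
    linarith
  calc ∏ i, mom (nu i)
      ≤ ∏ i, (Real.exp (kap * nu i) * (1 + (2 * M / r) / 4) ^ nu i) := by
        apply Finset.prod_le_prod (fun i _ => ?_) (fun i _ => h1 i)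
        exact integral_nonneg (fun x => Real.rpow_nonneg (abs_nonneg _) _)
    _ = Real.exp (kap * M) * (1 + (2 * M / r) / 4) ^ M := by
        rw [Finset.prod_mul_distrib, ← Real.exp_sum, ← Finset.mul_sum,
          ← Real.rpow_sum_of_pos (by positivity)]
    _ ≤ _ := mul_le_mul_of_nonneg_left (num_pow M r hpos hr') (Real.exp_pos _).le

theorem core (hS : P_SCAL) (hM : P_MARG) (hK : P_KAP) (hO : P_ONE) (r d : ℕ)
    (b : Fin d → Fin r → ℝ) (nu : Fin d → ℝ)
    (hnu : ∀ i, 0 ≤ nu i) (h : ∀ i, 28 * r * nu i ≤ ∑ j, nu j) :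
    ∏ i, ∫ x, |lf (b i) x| ^ (2 * nu i) ∂(Gam r) ≤ ∫ x, Pr b nu x ∂(Gam r) := by
  rcases Nat.eq_zero_or_pos r with rfl | hr
  · have h1 : ∀ i (x : Fin 0 → ℝ), lf (b i) x = 0 := fun i x => by simp [lf]
    have h2 : ∀ x, Pr b nu x = ∏ i, |(0 : ℝ)| ^ (2 * nu i) := fun x => by
      unfold Pr
      exact Finset.prod_congr rfl (fun i _ => by rw [h1])
    simp only [h1, h2, integral_const, smul_eq_mul, probReal_univ, one_mul]
    exact le_rfl
  rcases (Finset.sum_nonneg (fun i _ => hnu i) : 0 ≤ ∑ i, nu i).lt_or_eq with hpos | hz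
  swap
  · have h1 : ∀ i, nu i = 0 := fun i =>
      (Finset.sum_eq_zero_iff_of_nonneg (fun i _ => hnu i)).1 hz.symm i (Finset.mem_univ i)
    have h2 : ∀ x, Pr b nu x = 1 := fun x => by
      unfold Pr
      exact Finset.prod_eq_one (fun i _ => by rw [h1 i]; simp)
    simp [h1, h2]
  by_cases hbad : ∃ i, (∑ j, b i j ^ 2 = 0) ∧ nu i ≠ 0
  · obtain ⟨i, hi, hi0⟩ := hbad
    have hbi : ∀ j, b i j = 0 := by
      intro j
      have := (Finset.sum_eq_zero_iff_of_nonneg (fun j _ => sq_nonneg (b i j))).1 hi j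
        (Finset.mem_univ j)
      exact pow_eq_zero_iff (two_ne_zero) |>.1 this
    have h1 : ∫ x, |lf (b i) x| ^ (2 * nu i) ∂(Gam r) = 0 := by
      have : ∀ x, |lf (b i) x| ^ (2 * nu i) = 0 := by
        intro x
        have : lf (b i) x = 0 := by simp [lf, hbi]
        rw [this, abs_zero, Real.zero_rpow (by simpa using hi0)]
      simp [this]
    rw [Finset.prod_eq_zero (Finset.mem_univ i) h1]
    exact integral_nonneg (Pr_nonneg b nu)
  · push Not at hbad
    -- normalisation
    have hunit : ∀ i, ∃ (c : ℝ) (u : Fin r → ℝ), 0 < c ∧ ∑ j, u j ^ 2 = 1 ∧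
        ∀ x, |lf (b i) x| ^ (2 * nu i) = c ^ (2 * nu i) * |lf u x| ^ (2 * nu i) := by
      intro i
      by_cases hi : ∑ j, b i j ^ 2 = 0
      · refine ⟨1, Pi.single ⟨0, hr⟩ 1, one_pos, ?_, ?_⟩
        · rw [Finset.sum_eq_single_of_mem (⟨0, hr⟩ : Fin r) (Finset.mem_univ _)]
          · simp
          · intro j _ hj
            simp [Pi.single_eq_of_ne hj]
        · intro x
          rw [hbad i hi]
          simp
      · have hp : 0 < ∑ j, b i j ^ 2 :=
          lt_of_le_of_ne (Finset.sum_nonneg (fun _ _ => sq_nonneg _)) (Ne.symm hi)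
        set c := Real.sqrt (∑ j, b i j ^ 2) with hc
        have hc0 : 0 < c := Real.sqrt_pos.2 hp
        have hc2 : c ^ 2 = ∑ j, b i j ^ 2 := Real.sq_sqrt hp.le
        refine ⟨c, fun j => b i j / c, hc0, ?_, ?_⟩
        · simp only [div_pow]
          rw [← Finset.sum_div, ← hc2]
          exact div_self (by positivity)
        · intro x
          have h1 : lf (b i) x = c * lf (fun j => b i j / c) x := by
            unfold lf
            rw [Finset.mul_sum]
            refine Finset.sum_congr rfl (fun j _ => ?_)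
            field_simp
          rw [h1, abs_mul, abs_of_pos hc0, Real.mul_rpow hc0.le (abs_nonneg _)]
    choose c u hc hu hlu using hunit
    have h1 : ∀ i, ∫ x, |lf (b i) x| ^ (2 * nu i) ∂(Gam r) = c i ^ (2 * nu i) * mom (nu i) := by
      intro i
      simp only [hlu i]
      rw [integral_const_mul, mom_lf hM (u i) (hu i)]
    have h2 : ∀ x, Pr b nu x = (∏ i, c i ^ (2 * nu i)) * Pr u nu x := by
      intro x
      unfold Pr
      rw [← Finset.prod_mul_distrib]
      exact Finset.prod_congr rfl (fun i _ => hlu i x)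
    simp only [h1, h2]
    rw [Finset.prod_mul_distrib, integral_const_mul]
    exact mul_le_mul_of_nonneg_left (unit_case hS hM hK hO hr u hu nu hnu hpos h)
      (Finset.prod_nonneg (fun i _ => Real.rpow_nonneg (hc i).le _))

theorem final (hS : P_SCAL) (hM : P_MARG) (hK : P_KAP) (hO : P_ONE) (hR : P_REP) (d r : ℕ)
    (mu : Measure (Fin d → ℝ)) (hmu : IsGaussian mu) (h0 : ∫ x, x ∂mu = 0)
    (hr : (Matrix.of fun i k : Fin d => ∫ x, x i * x k ∂mu).rank ≤ r)
    (nu : Fin d → ℝ) (hnu : ∀ i, 0 ≤ nu i) (h : ∀ i, 28 * r * nu i ≤ ∑ j, nu j) :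
    ∏ i, ∫ x, |x i| ^ (2 * nu i) ∂mu ≤ ∫ x, ∏ i, |x i| ^ (2 * nu i) ∂mu := by
  obtain ⟨b, hb⟩ := hR d r mu hmu h0 hr
  have hT : Measurable (fun (x : Fin r → ℝ) (i : Fin d) => ∑ j, b i j * x j) := by fun_prop
  have h1 : ∀ i, ∫ x, |x i| ^ (2 * nu i) ∂mu = ∫ x, |lf (b i) x| ^ (2 * nu i) ∂(Gam r) := by
    intro i
    rw [hb, integral_map hT.aemeasurable]
    · rfl
    · exact ((measurable_pi_apply i).abs.pow_const _).aestronglyMeasurable
  have h2 : ∫ x, ∏ i, |x i| ^ (2 * nu i) ∂mu = ∫ x, Pr b nu x ∂(Gam r) := by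
    rw [hb, integral_map hT.aemeasurable]
    · rfl
    · exact (Finset.measurable_prod _
        (fun i _ => (measurable_pi_apply i).abs.pow_const _)).aestronglyMeasurable
  simp only [h1]
  rw [h2]
  exact core hS hM hK hO r d b nu hnu h

end Pool.Agent.W2helper31.GP
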