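import Pool.Agent.W2helper31.GP.Stm

set_option autoImplicit false

/-!
# Project GP (MP_130bb2_pr), second round: the constant 4 instead of 28, statements

Target: GPI for rank `≤ r` and `4 r nu_i ≤ ∑ nu_j`. New ingredient:
`E |g|^(2 nu) ≤ e^((kap - 1) nu) (1 + 8 nu)^(nu + 1/8)`. Write `EM` for `Real.eulerMascheroniConstant`.
-/

open MeasureTheory ProbabilityTheory
open scoped ENNReal NNReal

namespace Pool.Agent.W2helper31.GP

/-- PIECE MOM. Absolute moments of the standard normal law.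
Proof: density of `gaussianReal 0 1`, `integral_comp_abs`, `integral_rpow_mul_exp_neg_mul_rpow` with `p = 2`,
`b = 1/2`; integrability: nonzero integral on `Ioi 0` (or `integrable_rpow_mul_exp_neg_mul_sq`). -/
def P_MOM : Prop :=
  ∀ s : ℝ, -1 < s →
    Integrable (fun x : ℝ => |x| ^ s) (gaussianReal 0 1) ∧
      ∫ x, |x| ^ s ∂(gaussianReal 0 1)
        = 2 ^ (s / 2) * Real.Gamma ((s + 1) / 2) / Real.sqrt Real.pi

/-- PIECE KAP2 (uses MOM and KAP as hypotheses). Proof: for `0 < s < 1/2` and `x ≠ 0` one has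
`|x|^(-2 s) = exp (-2 s log |x|) ≥ 1 - 2 s log |x|`; integrate: `m s ≥ 1 - s kap`, where
`m s = E |g|^(-2 s) = 2^(-s) Gamma (1/2 - s) / √π`; so `kap ≥ -(m s - m 0)/s → -m'(0)
= -(EM + log 2)`, by `Real.hasDerivAt_Gamma_one_half`; `ge_of_tendsto` with `hasDerivAt_iff_tendsto_slope`. -/
def P_KAP2 : Prop :=
  P_MOM → P_KAP → -(Real.eulerMascheroniConstant + Real.log 2) ≤ kap

/-- PIECE GAM. With `phi z = z - log (1 + z)`: `log Gamma (1/2 + nu) - log Gamma (1/2) ≤ -(EM + 2 log 2) nu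
+ phi (2 nu) + phi (2 nu / 3) + nu^2 / 4`. Proof: `Real.BohrMollerup.tendsto_log_gamma` at `1/2 + nu` and at `1/2`,
`le_of_tendsto`: for every `n ≥ 1` the difference of the two `logGammaSeq` at `n` is
`nu log n - ∑_{m ≤ n} log (1 + 2 nu/(2 m + 1)) = nu (log n - ∑_{m ≤ n} 2/(2 m + 1)) + ∑_{m ≤ n} phi (2 nu/(2 m + 1))`.
First: `∑_{m ≤ n} 2/(2 m + 1) = 2 H_{2n+2} - H_{n+1}`, `H_k ≥ EM + log k`, `H_k ≤ EM + log (k + 1)`
(`Real.eulerMascheroniConstant_lt_eulerMascheroniSeq'`, `Real.eulerMascheroniSeq_lt_eulerMascheroniConstant`), so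
`log n - ∑ ≤ log (n (n+2)/(2n+2)^2) - EM ≤ -2 log 2 - EM`. Second: for `m ≥ 2` `phi z ≤ z^2/2` and
`∑_{m ≥ 2} 2 nu^2/(2m+1)^2 ≤ ∑_{m ≥ 2} 2 nu^2/((2m)(2m+2)) ≤ nu^2/4` (telescoping). -/
def P_GAM : Prop :=
  ∀ nu : ℝ, 0 ≤ nu →
    Real.log (Real.Gamma (1 / 2 + nu)) ≤ Real.log (Real.sqrt Real.pi)
      - (Real.eulerMascheroniConstant + 2 * Real.log 2) * nu
      + (2 * nu - Real.log (1 + 2 * nu)) + (2 * nu / 3 - Real.log (1 + 2 * nu / 3)) + nu ^ 2 / 4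

/-- PIECE NUMD. One variable, numerically clear (difference at least `nu^2 / 7`).
Proof: let `T` be the difference, `T 0 = 0`, `T' nu = log (1 + 8 nu) - 4 nu/(1 + 2 nu) - 4 nu/(9 + 6 nu) - nu/2`;
`T'` is concave on `[0,1]` (`T''' < 0`), `T' 0 = 0`, `T' 1 = log 9 - 21/10 > 0`, so `T' ≥ 0`. -/
def P_NUMD : Prop :=
  ∀ nu : ℝ, 0 ≤ nu → nu ≤ 1 →
    (2 * nu - Real.log (1 + 2 * nu)) + (2 * nu / 3 - Real.log (1 + 2 * nu / 3)) + nu ^ 2 / 4
      ≤ (nu + 1 / 8) * Real.log (1 + 8 * nu) - nu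

/-- PIECE NUME. Proof: with `s = 1 + 8 nu` the claim is
`(s/8) log (1 + 8/s) - 1 + log 2 + log (1 + 5/(s+3)) ≥ EM`; `log (1 + z) ≥ 2 z/(2 + z)` gives
`-4/(s+4) + 10/(2s+11) + log 2 ≥ EM`, the first two terms are at least `-2/65`, and
`EM < eulerMascheroniSeq' 8 = 761/280 - 3 log 2 < 0.6386`. -/
def P_NUME : Prop :=
  ∀ nu : ℝ, 0 ≤ nu →
    (nu + 1 / 8) * Real.log (1 + 8 * nu) + 1 + Real.eulerMascheroniConstant + 2 * Real.log 2
      + Real.log (nu + 1 / 2) ≤ (nu + 9 / 8) * Real.log (9 + 8 * nu)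

/-- PIECE GAM2 (assembly of GAM, NUMD, NUME). Proof: on `[0,1]` GAM and NUMD; then induction
`nu → nu + 1` with `Gamma (nu + 3/2) = (nu + 1/2) Gamma (nu + 1/2)` and NUME. -/
def P_GAM2 : Prop :=
  P_GAM → P_NUMD → P_NUME → ∀ nu : ℝ, 0 ≤ nu →
    Real.log (Real.Gamma (1 / 2 + nu)) ≤ Real.log (Real.sqrt Real.pi)
      - (1 + Real.eulerMascheroniConstant + 2 * Real.log 2) * nu
      + (nu + 1 / 8) * Real.log (1 + 8 * nu)

/-- PIECE NUMF. `(1 + 1/y) log (1 + y)` is increasing: derivative `(y - log (1 + y))/y^2`.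
(Or: `u ↦ log (1 + u)` has decreasing slope; compare `log (1+z)/log (1+y)`.) -/
def P_NUMF : Prop :=
  ∀ y z : ℝ, 0 < y → y ≤ z →
    (1 + 1 / y) * Real.log (1 + y) ≤ (1 + 1 / z) * Real.log (1 + z)

end Pool.Agent.W2helper31.GP
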