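import Mathlib
import Pool.Agent.W2helper31.GP.Core
import Pool.Agent.W2helper31.GP.Stm2

set_option autoImplicit false

/-!
# The Gaussian product inequality for few dimensions: assembly with the constant 4
-/

open MeasureTheory ProbabilityTheory
open scoped ENNReal NNReal

namespace Pool.Agent.W2helper31.GP

/-- the sharp one-dimensional moment bound -/
def P_ONE2 : Prop :=
  ∀ nu : ℝ, 0 ≤ nu →
    mom nu ≤ Real.exp ((kap - 1) * nu) * (1 + 8 * nu) ^ (nu + 1 / 8)

theorem one2 (hMom : P_MOM) (hK : P_KAP) (hK2 : P_KAP2) (hG : P_GAM) (hD : P_NUMD) (hE : P_NUME)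
    (hG2 : P_GAM2) : P_ONE2 := by
  intro nu hnu
  have hk := hK2 hMom hK
  have hg := hG2 hG hD hE nu hnu
  have hm : mom nu = 2 ^ nu * Real.Gamma (1 / 2 + nu) / Real.sqrt Real.pi := by
    unfold mom
    rw [(hMom (2 * nu) (by linarith)).2]
    congr 2
    · congr 1
      ring
    · congr 1
      ring
  have hG0 : 0 < Real.Gamma (1 / 2 + nu) := Real.Gamma_pos_of_pos (by positivity)
  have hpi : 0 < Real.sqrt Real.pi := Real.sqrt_pos.2 Real.pi_pos
  have hpos : 0 < mom nu := by
    rw [hm]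
    positivity
  have hl : Real.log (mom nu) = nu * Real.log 2 + Real.log (Real.Gamma (1 / 2 + nu))
      - Real.log (Real.sqrt Real.pi) := by
    rw [hm, Real.log_div (by positivity) hpi.ne', Real.log_mul (by positivity) hG0.ne',
      Real.log_rpow (by norm_num)]
  have hR : Real.exp ((kap - 1) * nu) * (1 + 8 * nu) ^ (nu + 1 / 8)
      = Real.exp ((kap - 1) * nu + (nu + 1 / 8) * Real.log (1 + 8 * nu)) := by
    rw [Real.rpow_def_of_pos (by positivity), ← Real.exp_add]
    congr 1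
    ring
  rw [hR, ← Real.exp_log hpos]
  apply Real.exp_le_exp.2
  rw [hl]
  nlinarith [mul_le_mul_of_nonneg_right hk hnu]

theorem unit_case2 (hS : P_SCAL) (hM : P_MARG) (hK : P_KAP) (hO : P_ONE2) (hF : P_NUMF) {r d : ℕ}
    (hr : 0 < r) (b : Fin d → Fin r → ℝ) (hb : ∀ i, ∑ j, b i j ^ 2 = 1) (nu : Fin d → ℝ)
    (hnu : ∀ i, 0 ≤ nu i) (hpos : 0 < ∑ i, nu i) (h : ∀ i, 4 * r * nu i ≤ ∑ j, nu j) :
    ∏ i, mom (nu i) ≤ ∫ x, Pr b nu x ∂(Gam r) := by
  refine le_trans ?_ (lower hS hM hK hr b hb nu hnu hpos).2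
  set M := ∑ i, nu i with hMd
  have hr' : (0 : ℝ) < r := by exact_mod_cast hr
  set y : ℝ := 2 * M / r with hy
  have hy0 : 0 < y := by positivity
  set c : ℝ := (1 + 1 / y) * Real.log (1 + y) with hc
  have h1 : ∀ i, mom (nu i) ≤ Real.exp (nu i * (kap - 1 + c)) := by
    intro i
    refine le_trans (hO (nu i) (hnu i)) ?_
    rcases (hnu i).lt_or_eq with hp | hz
    · have h2 : 8 * nu i ≤ y := by
        rw [hy, le_div_iff₀ hr']
        have := h i
        nlinarith
      have h3 := hF (8 * nu i) y (by positivity) h2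
      rw [Real.rpow_def_of_pos (by positivity), ← Real.exp_add]
      apply Real.exp_le_exp.2
      have h4 : (1 + 1 / (8 * nu i)) * Real.log (1 + 8 * nu i) * nu i
          = Real.log (1 + 8 * nu i) * (nu i + 1 / 8) := by
        field_simp
      have h5 := mul_le_mul_of_nonneg_right h3 hp.le
      rw [h4] at h5
      linarith
    · rw [← hz]
      simp
  calc ∏ i, mom (nu i)
      ≤ ∏ i, Real.exp (nu i * (kap - 1 + c)) := by
        apply Finset.prod_le_prod (fun i _ => ?_) (fun i _ => h1 i)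
        exact integral_nonneg (fun x => Real.rpow_nonneg (abs_nonneg _) _)
    _ = Real.exp (kap * M) * ((1 + 2 * M / r) ^ (M + r / 2) * Real.exp (-M)) := by
        rw [← Real.exp_sum, ← Finset.sum_mul, ← hMd, ← hy,
          Real.rpow_def_of_pos (by positivity), ← Real.exp_add, ← Real.exp_add]
        congr 1
        have h6 : M * c = Real.log (1 + y) * (M + r / 2) := by
          rw [hc, hy]
          field_simp
        linear_combination h6
    _ ≤ _ := le_rfl

theorem core2 (hS : P_SCAL) (hM : P_MARG) (hK : P_KAP) (hO : P_ONE2) (hF : P_NUMF) (r d : ℕ)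
    (b : Fin d → Fin r → ℝ) (nu : Fin d → ℝ)
    (hnu : ∀ i, 0 ≤ nu i) (h : ∀ i, 4 * r * nu i ≤ ∑ j, nu j) :
    ∏ i, ∫ x, |lf (b i) x| ^ (2 * nu i) ∂(Gam r) ≤ ∫ x, Pr b nu x ∂(Gam r) := by
  rcases Nat.eq_zero_or_pos r with rfl | hr
  · have h1 : ∀ i (x : Fin 0 → ℝ), lf (b i) x = 0 := fun i x => by simp [lf]
    have h2 : ∀ x, Pr b nu x = ∏ i, |(0 : ℝ)| ^ (2 * nu i) := fun x => by
      unfold Pr
      exact Finset.prod_congr rfl (fun i _ => by rw [h1])
    simp only [h1, h2, integral_const, smul_eq_mul, probReal_univ, one_mul]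
    exact le_rfl
  rcases (Finset.sum_nonneg (fun i _ => hnu i) : 0 ≤ ∑ i, nu i).lt_or_eq with hpos | hz
  swap
  · have h1 : ∀ i, nu i = 0 := fun i =>
      (Finset.sum_eq_zero_iff_of_nonneg (fun i _ => hnu i)).1 hz.symm i (Finset.mem_univ i)
    have h2 : ∀ x, Pr b nu x = 1 := fun x => by
      unfold Pr
      exact Finset.prod_eq_one (fun i _ => by rw [h1 i]; simp)
    simp [h1, h2]
  by_cases hbad : ∃ i, (∑ j, b i j ^ 2 = 0) ∧ nu i ≠ 0
  · obtain ⟨i, hi, hi0⟩ := hbad
    have hbi : ∀ j, b i j = 0 := by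
      intro j
      have := (Finset.sum_eq_zero_iff_of_nonneg (fun j _ => sq_nonneg (b i j))).1 hi j
        (Finset.mem_univ j)
      exact pow_eq_zero_iff (two_ne_zero) |>.1 this
    have h1 : ∫ x, |lf (b i) x| ^ (2 * nu i) ∂(Gam r) = 0 := by
      have : ∀ x, |lf (b i) x| ^ (2 * nu i) = 0 := by
        intro x
        have : lf (b i) x = 0 := by simp [lf, hbi]
        rw [this, abs_zero, Real.zero_rpow (by simpa using hi0)]
      simp [this]
    rw [Finset.prod_eq_zero (Finset.mem_univ i) h1]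
    exact integral_nonneg (Pr_nonneg b nu)
  · push Not at hbad
    -- normalisation
    have hunit : ∀ i, ∃ (c : ℝ) (u : Fin r → ℝ), 0 < c ∧ ∑ j, u j ^ 2 = 1 ∧
        ∀ x, |lf (b i) x| ^ (2 * nu i) = c ^ (2 * nu i) * |lf u x| ^ (2 * nu i) := by
      intro i
      by_cases hi : ∑ j, b i j ^ 2 = 0
      · refine ⟨1, Pi.single ⟨0, hr⟩ 1, one_pos, ?_, ?_⟩
        · rw [Finset.sum_eq_single_of_mem (⟨0, hr⟩ : Fin r) (Finset.mem_univ _)]
          · simp
          · intro j _ hj
            simp [Pi.single_eq_of_ne hj]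
        · intro x
          rw [hbad i hi]
          simp
      · have hp : 0 < ∑ j, b i j ^ 2 :=
          lt_of_le_of_ne (Finset.sum_nonneg (fun _ _ => sq_nonneg _)) (Ne.symm hi)
        set c := Real.sqrt (∑ j, b i j ^ 2) with hc
        have hc0 : 0 < c := Real.sqrt_pos.2 hp
        have hc2 : c ^ 2 = ∑ j, b i j ^ 2 := Real.sq_sqrt hp.le
        refine ⟨c, fun j => b i j / c, hc0, ?_, ?_⟩
        · simp only [div_pow]
          rw [← Finset.sum_div, ← hc2]
          exact div_self (by positivity)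
        · intro x
          have h1 : lf (b i) x = c * lf (fun j => b i j / c) x := by
            unfold lf
            rw [Finset.mul_sum]
            refine Finset.sum_congr rfl (fun j _ => ?_)
            field_simp
          rw [h1, abs_mul, abs_of_pos hc0, Real.mul_rpow hc0.le (abs_nonneg _)]
    choose c u hc hu hlu using hunit
    have h1 : ∀ i, ∫ x, |lf (b i) x| ^ (2 * nu i) ∂(Gam r) = c i ^ (2 * nu i) * mom (nu i) := by
      intro i
      simp only [hlu i]
      rw [integral_const_mul, mom_lf hM (u i) (hu i)]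
    have h2 : ∀ x, Pr b nu x = (∏ i, c i ^ (2 * nu i)) * Pr u nu x := by
      intro x
      unfold Pr
      rw [← Finset.prod_mul_distrib]
      exact Finset.prod_congr rfl (fun i _ => hlu i x)
    simp only [h1, h2]
    rw [Finset.prod_mul_distrib, integral_const_mul]
    exact mul_le_mul_of_nonneg_left (unit_case2 hS hM hK hO hF hr u hu nu hnu hpos h)
      (Finset.prod_nonneg (fun i _ => Real.rpow_nonneg (hc i).le _))

theorem final2 (hS : P_SCAL) (hM : P_MARG) (hK : P_KAP) (hO : P_ONE2) (hF : P_NUMF) (hR : P_REP)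
    (d r : ℕ)
    (mu : Measure (Fin d → ℝ)) (hmu : IsGaussian mu) (h0 : ∫ x, x ∂mu = 0)
    (hr : (Matrix.of fun i k : Fin d => ∫ x, x i * x k ∂mu).rank ≤ r)
    (nu : Fin d → ℝ) (hnu : ∀ i, 0 ≤ nu i) (h : ∀ i, 4 * r * nu i ≤ ∑ j, nu j) :
    ∏ i, ∫ x, |x i| ^ (2 * nu i) ∂mu ≤ ∫ x, ∏ i, |x i| ^ (2 * nu i) ∂mu := by
  obtain ⟨b, hb⟩ := hR d r mu hmu h0 hr
  have hT : Measurable (fun (x : Fin r → ℝ) (i : Fin d) => ∑ j, b i j * x j) := by fun_prop
  have h1 : ∀ i, ∫ x, |x i| ^ (2 * nu i) ∂mu = ∫ x, |lf (b i) x| ^ (2 * nu i) ∂(Gam r) := by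
    intro i
    rw [hb, integral_map hT.aemeasurable]
    · rfl
    · exact ((measurable_pi_apply i).abs.pow_const _).aestronglyMeasurable
  have h2 : ∫ x, ∏ i, |x i| ^ (2 * nu i) ∂mu = ∫ x, Pr b nu x ∂(Gam r) := by
    rw [hb, integral_map hT.aemeasurable]
    · rfl
    · exact (Finset.measurable_prod _
        (fun i _ => (measurable_pi_apply i).abs.pow_const _)).aestronglyMeasurable
  simp only [h1]
  rw [h2]
  exact core2 hS hM hK hO hF r d b nu hnu h

end Pool.Agent.W2helper31.GP
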