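import Pool.Agent.W2helper31.GP.Stm2

set_option autoImplicit false

/-!
# Project GP (MP_130bb2_pr), third round: `4 (r - 1) nu_i ≤ ∑ nu_j`, statements

Idea: `E ∏ |<u_i, g>|^(2 nu_i) = E |g|^(2 M) * E ∏ |<u_i, g/|g|>|^(2 nu_i)` and Jensen, and the exact
value of `E |g|^(2 M)`.
-/

open MeasureTheory ProbabilityTheory
open scoped ENNReal NNReal

namespace Pool.Agent.W2helper31.GP

/-- `phi z = z - log (1 + z)` -/
noncomputable def phi (z : ℝ) : ℝ := z - Real.log (1 + z)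

/-- logarithmic derivative of the Gamma function -/
noncomputable def dg (a : ℝ) : ℝ := deriv Real.Gamma a / Real.Gamma a

/-- the expectation of `log |g|^2` in `ℝ^r` -/
noncomputable def kapr (r : ℕ) : ℝ := ∫ x, Real.log (∑ j, x j ^ 2) ∂(Gam r)

/-- PIECE RMOM. Moments of `|g|^2` in `ℝ^r`. Proof: density of `Gam r` (`pi_withDensity` in
`Pool.Agent.W2helper2.GP.SCAL`), `EuclideanSpace` via `PiLp.volume_preserving_toLp` (or `ofLp`), and
`integral_fun_norm_addHaar` twice (for `s` and for `s = 0`, so that the volume of the ball cancels), then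
`integral_rpow_mul_exp_neg_mul_rpow` with `p = 2`, `b = 1/2`. -/
def P_RMOM : Prop :=
  ∀ (r : ℕ) (s : ℝ), 0 < r → 0 ≤ s →
    Integrable (fun x : Fin r → ℝ => (∑ j, x j ^ 2) ^ s) (Gam r) ∧
      ∫ x, (∑ j, x j ^ 2) ^ s ∂(Gam r) = 2 ^ s * Real.Gamma (r / 2 + s) / Real.Gamma (r / 2)

/-- PIECE IND. `E F(g) = E |g|^(2 M) * E (F(g) |g|^(-2 M))` for `F` homogeneous of degree `2 M`.
Proof: `P_SCAL` with `t = 1/(1 + l)` and homogeneity: for `l > 0`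
`∫⁻ F x exp (-l |x|^2/2) = (1 + l)^(-M - r/2) ∫⁻ F`. Multiply with `l^(M - 1)` and integrate over `l > 0`
(Tonelli, `lintegral_lintegral_swap`): for `x ≠ 0` `∫⁻ l^(M-1) exp (-l |x|^2/2) = Gamma M * 2^M * |x|^(-2M)`
(`Real.integral_rpow_mul_exp_neg_mul_Ioi`), so `A * ∫⁻ F |x|^(-2M) = C * ∫⁻ F` with `A = Gamma M 2^M` and
`C = ∫⁻ l^(M-1) (1+l)^(-M-r/2)`. The same for `F = |x|^(2M)`: `A = C * ∫⁻ |x|^(2M)`. As `A` and
`∫⁻ |x|^(2M)` (by RMOM) are positive and finite, `C` is too, and the claim follows. -/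
def P_IND : Prop :=
  P_SCAL → P_RMOM → ∀ (r : ℕ) (M : ℝ), 0 < r → 0 < M → ∀ F : (Fin r → ℝ) → ℝ≥0∞, Measurable F →
    (∀ (t : ℝ) (x : Fin r → ℝ), 0 < t → F (Real.sqrt t • x) = ENNReal.ofReal (t ^ M) * F x) →
    ∫⁻ x, F x ∂(Gam r) =
      (∫⁻ x, ENNReal.ofReal ((∑ j, x j ^ 2) ^ M) ∂(Gam r)) *
        ∫⁻ x, F x * ENNReal.ofReal ((∑ j, x j ^ 2) ^ (-M)) ∂(Gam r)

/-- PIECE KAPR. `log |g|^2` is integrable and `E log |g|^2 ≤ log 2 + dg (r/2)`.
Proof: `2 log |x 0| ≤ log |x|^2 ≤ |x|^2` almost everywhere, the lower bound is integrable by `P_KAP` and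
`P_MARG` (first unit vector), the upper by `P_MARG`. Then `|x|^(2 s) ≥ 1 + s log |x|^2` gives
`kapr r ≤ (m s - 1)/s` for `s > 0`, `m s = 2^s Gamma (r/2 + s)/Gamma (r/2)`, and `m` is differentiable at
`0` with derivative `log 2 + dg (r/2)` (`Real.differentiableAt_Gamma`); `ge_of_tendsto`. -/
def P_KAPR : Prop :=
  P_MARG → P_KAP → P_RMOM → ∀ r : ℕ, 0 < r →
    Integrable (fun x : Fin r → ℝ => Real.log (∑ j, x j ^ 2)) (Gam r) ∧
      kapr r ≤ Real.log 2 + dg (r / 2)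

/-- PIECE SER. Proof: by `Real.BohrMollerup.tendsto_log_gamma` at `a + s` and `a`, `L s = log Gamma (a+s) -
log Gamma a` is the limit of `s c_n + ∑_{m ≤ n} phi (s/(a+m))`, `c_n = log n - ∑_{m ≤ n} 1/(a+m)`. As
`0 ≤ phi z ≤ z^2/2` the series converges, to `S s ≤ C s^2`, so (take `s = 1`) `c_n` converges to some `c`, and
`L s = c s + S s` for all `s ≥ 0`. So the right derivative of `L` at `0` is `c`, i.e. `c = dg a`. -/
def P_SER : Prop :=
  ∀ a s : ℝ, 0 < a → 0 ≤ s →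
    HasSum (fun k : ℕ => phi (s / (a + k)))
      (Real.log (Real.Gamma (a + s)) - Real.log (Real.Gamma a) - s * dg a)

/-- PIECE CONV. Proof: `q = r - 1 ≥ 1`. By SER the right side is `∑_k phi (q m/((q+1)/2 + k))`; group
`k = q l + j`, `j < q` (`Nat.divModEquiv` or `Nat.sumByResidueClasses`): the terms are `phi (m/(l + a_j))`,
`a_j = (q + 1)/(2 q) + j/q` with average `1` over `j < q`; `u ↦ phi (m/u)` is convex on `(0,∞)`
(derivative `-m^2/(u^2 (u+m))`), so the group sum is at least `q phi (m/(l+1))` (tangent line at `l + 1`, or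
`ConvexOn.map_sum_le`), and the left side is `q ∑_l phi (m/(l+1))` by SER with `a = 1`. -/
def P_CONV : Prop :=
  P_SER → ∀ (r : ℕ) (m : ℝ), 2 ≤ r → 0 ≤ m →
    ((r : ℝ) - 1) * (Real.log (Real.Gamma (1 + m)) - m * dg 1) ≤
      Real.log (Real.Gamma (r / 2 + (r - 1) * m)) - Real.log (Real.Gamma (r / 2))
        - (r - 1) * m * dg (r / 2)

/-- PIECE QUAD. Proof: on `[0,1]` by SER with `a = 1` and `s = 4 nu, nu, 2 nu`: the linear terms cancel and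
termwise `phi (4 z) + 4 phi z - 4 phi (2 z) = log ((1+2z)^4/((1+4z)(1+z)^4)) ≥ 0` for `z = nu/(k+1)` in `[0,1]`, as
`(1+2z)^4 - (1+4z)(1+z)^4 = z^2 (2 + 4 z - z^2 - 4 z^3)`. Then induction `nu → nu + 1`: the quotient changes by the
factor `(4 nu+1)(4 nu+3)(nu+1)/(2 (2 nu+1)^3) ≥ 1`. -/
def P_QUAD : Prop :=
  P_SER → ∀ nu : ℝ, 0 ≤ nu →
    Real.Gamma (1 + 2 * nu) ^ 4 ≤ Real.Gamma (1 + 4 * nu) * Real.Gamma (1 + nu) ^ 4

/-- PIECE QUAD2 (assembly). Proof: `Real.hasDerivAt_Gamma_one_half`, `Real.hasDerivAt_Gamma_one`: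
`dg (1/2) = -(EM + 2 log 2)`, `dg 1 = -EM`; the duplication formula `Real.Gamma_mul_Gamma_add_half` gives
`Gamma (1/2 + nu) = √π 2^(-2 nu) Gamma (1 + 2 nu)/Gamma (1 + nu)`; take logarithms in QUAD. -/
def P_QUAD2 : Prop :=
  (∀ nu : ℝ, 0 ≤ nu →
    Real.Gamma (1 + 2 * nu) ^ 4 ≤ Real.Gamma (1 + 4 * nu) * Real.Gamma (1 + nu) ^ 4) →
  (∀ nu : ℝ, 0 ≤ nu →
    4 * (Real.log (Real.Gamma (1 / 2 + nu)) - Real.log (Real.Gamma (1 / 2)) - nu * dg (1 / 2)) ≤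
      Real.log (Real.Gamma (1 + 4 * nu)) - 4 * nu * dg 1) ∧
  dg (1 / 2) = -(Real.eulerMascheroniConstant + 2 * Real.log 2)

end Pool.Agent.W2helper31.GP
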