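import Mathlib
import Pool.Agent.W2helper31.GP.Jen
import Pool.Agent.W2helper31.GP.Core
import Pool.Agent.W2helper31.GP.Stm3

set_option autoImplicit false

/-!
# Jensen's inequality on directions
-/

open MeasureTheory ProbabilityTheory
open scoped ENNReal NNReal

namespace Pool.Agent.W2helper31.GP

theorem lower3 {r d : ℕ} (hS : P_SCAL) (hM : P_MARG) (hK : P_KAP) (hR : P_RMOM) (hI : P_IND)
    (hKR : P_KAPR) (hr : 0 < r)
    (b : Fin d → Fin r → ℝ) (hb : ∀ i, ∑ j, b i j ^ 2 = 1) (nu : Fin d → ℝ)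
    (hnu : ∀ i, 0 ≤ nu i) (hpos : 0 < ∑ i, nu i) :
    Real.exp (kap * (∑ i, nu i) - kapr r * (∑ i, nu i)) *
      (∫ x, (∑ j, x j ^ 2) ^ (∑ i, nu i) ∂(Gam r)) ≤ ∫ x, Pr b nu x ∂(Gam r) := by
  set M := ∑ i, nu i with hMd
  have hPi : Integrable (Pr b nu) (Gam r) := (lower hS hM hK hr b hb nu hnu hpos).1
  have hsq0 : ∀ x : Fin r → ℝ, 0 ≤ ∑ j, x j ^ 2 :=
    fun x => Finset.sum_nonneg (fun _ _ => sq_nonneg _)
  have hsqm : Measurable (fun x : Fin r → ℝ => ∑ j, x j ^ 2) := by fun_prop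
  set F : (Fin r → ℝ) → ℝ := fun x => Pr b nu x * (∑ j, x j ^ 2) ^ (-M) with hF
  have hFm : Measurable F := (Pr_meas b nu).mul (hsqm.pow_const _)
  have hF0 : ∀ x, 0 ≤ F x := fun x =>
    mul_nonneg (Pr_nonneg _ _ _) (Real.rpow_nonneg (hsq0 x) _)
  have hF1 : ∀ x, F x ≤ 1 := by
    intro x
    rcases (hsq0 x).lt_or_eq with h | h
    · calc F x ≤ (∑ j, x j ^ 2) ^ M * (∑ j, x j ^ 2) ^ (-M) :=
            mul_le_mul_of_nonneg_right (Pr_le b hb nu hnu x) (Real.rpow_nonneg (hsq0 x) _)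
        _ = 1 := by
            rw [← Real.rpow_add h]
            simp
    · have h2 : -M ≠ 0 := neg_ne_zero.2 hpos.ne'
      simp only [hF]
      rw [← h, Real.zero_rpow h2]
      simp
  have hFi : Integrable F (Gam r) := by
    refine Integrable.of_bound hFm.aestronglyMeasurable 1
      (Filter.Eventually.of_forall (fun x => ?_))
    rw [Real.norm_eq_abs, abs_of_nonneg (hF0 x)]
    exact hF1 x
  have hmi := hR r M hr hpos.le
  have hm0 : ∀ x : Fin r → ℝ, 0 ≤ (∑ j, x j ^ 2) ^ M := fun x => Real.rpow_nonneg (hsq0 x) _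
  -- factorisation
  have hfac : ∫ x, Pr b nu x ∂(Gam r) = (∫ x, (∑ j, x j ^ 2) ^ M ∂(Gam r)) * ∫ x, F x ∂(Gam r) := by
    have h1 := hI hS hR r M hr hpos (fun x => ENNReal.ofReal (Pr b nu x))
      (Pr_meas b nu).ennreal_ofReal (by
        intro t x ht
        rw [Pr_smul b nu _ (Real.sqrt_pos.2 ht), ENNReal.ofReal_mul (by positivity)]
        congr 2
        rw [← Finset.mul_sum, Real.rpow_mul (Real.sqrt_nonneg _), Real.rpow_two,
          Real.sq_sqrt ht.le])
    have h2 : ∫⁻ x, ENNReal.ofReal (Pr b nu x) * ENNReal.ofReal ((∑ j, x j ^ 2) ^ (-M)) ∂(Gam r)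
        = ∫⁻ x, ENNReal.ofReal (F x) ∂(Gam r) := by
      refine lintegral_congr (fun x => ?_)
      rw [← ENNReal.ofReal_mul (Pr_nonneg _ _ _)]
    rw [h2] at h1
    rw [integral_eq_lintegral_of_nonneg_ae (Filter.Eventually.of_forall (Pr_nonneg b nu))
        (Pr_meas b nu).aestronglyMeasurable, h1, ENNReal.toReal_mul,
      integral_eq_lintegral_of_nonneg_ae (Filter.Eventually.of_forall hm0)
        (hsqm.pow_const _).aestronglyMeasurable,
      integral_eq_lintegral_of_nonneg_ae (Filter.Eventually.of_forall hF0)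
        hFm.aestronglyMeasurable]
  -- Jensen
  have hlogi := (hKR hM hK hR r hr).1
  set h : (Fin r → ℝ) → ℝ := fun x => (∑ i, 2 * nu i * Real.log (lf (b i) x)) +
    (-M) * Real.log (∑ j, x j ^ 2) with hh
  have hi1 : ∀ i ∈ (Finset.univ : Finset (Fin d)),
      Integrable (fun x => 2 * nu i * Real.log (lf (b i) x)) (Gam r) :=
    fun i _ => (log_lf hM hK (b i) (hb i)).1.const_mul _
  have hi2 : Integrable (fun x : Fin r → ℝ => (-M) * Real.log (∑ j, x j ^ 2)) (Gam r) :=
    hlogi.const_mul _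
  have hi : Integrable h (Gam r) := (integrable_finsetSum _ hi1).add hi2
  have hint : ∫ x, h x ∂(Gam r) = kap * M - kapr r * M := by
    rw [hh, integral_add (integrable_finsetSum _ hi1) hi2, integral_finsetSum _ hi1,
      integral_const_mul]
    have : ∀ i ∈ (Finset.univ : Finset (Fin d)),
        ∫ x, 2 * nu i * Real.log (lf (b i) x) ∂(Gam r) = kap * nu i := by
      intro i _
      rw [integral_const_mul, (log_lf hM hK (b i) (hb i)).2]
      ring
    rw [Finset.sum_congr rfl this, ← Finset.mul_sum]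
    unfold kapr
    ring
  obtain ⟨i0, hi0⟩ : ∃ i, 0 < nu i := by
    by_contra hcon
    push Not at hcon
    have : M ≤ 0 := Finset.sum_nonpos (fun i _ => hcon i)
    linarith
  have hae : ∀ᵐ x ∂(Gam r), Real.exp (h x) = F x := by
    have h1 : ∀ᵐ x ∂(Gam r), ∀ i, lf (b i) x ≠ 0 :=
      ae_all_iff.2 (fun i => lf_ne hM (b i) (hb i))
    filter_upwards [h1] with x hx
    have hsp : 0 < ∑ j, x j ^ 2 := by
      have h2 := lf_sq_le (b i0) x (hb i0)
      have h3 : 0 < |lf (b i0) x| ^ 2 := by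
        have := abs_pos.2 (hx i0)
        positivity
      linarith
    simp only [hh, hF]
    rw [Real.exp_add, Real.exp_sum]
    congr 1
    · unfold Pr
      refine Finset.prod_congr rfl (fun i _ => ?_)
      rw [Real.rpow_def_of_pos (abs_pos.2 (hx i)), Real.log_abs, mul_comm]
    · rw [Real.rpow_def_of_pos hsp, mul_comm]
  have hexp : Integrable (Real.exp ∘ h) (Gam r) :=
    hFi.congr (hae.mono (fun x hx => by simpa using hx.symm))
  have hj := convexOn_exp.map_integral_le Real.continuous_exp.continuousOn isClosed_univ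
    (Filter.Eventually.of_forall (fun x => Set.mem_univ (h x))) hi hexp
  rw [hint] at hj
  have hj2 : Real.exp (kap * M - kapr r * M) ≤ ∫ x, F x ∂(Gam r) :=
    le_trans hj (le_of_eq (integral_congr_ae hae))
  rw [hfac, mul_comm]
  exact mul_le_mul_of_nonneg_left hj2 (integral_nonneg hm0)

end Pool.Agent.W2helper31.GP
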