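import Mathlib
import Pool.Agent.W2helper31.GP.Jen3
import Pool.Agent.W2helper31.GP.Core2

set_option autoImplicit false

/-!
# The Gaussian product inequality for few dimensions: assembly with the condition `4 (r - 1) nu_i ≤ ∑ nu_j`
-/

open MeasureTheory ProbabilityTheory
open scoped ENNReal NNReal

namespace Pool.Agent.W2helper31.GP

/-- `log Gamma (a + s) - log Gamma a - s dg a` -/
noncomputable def FF (a s : ℝ) : ℝ :=
  Real.log (Real.Gamma (a + s)) - Real.log (Real.Gamma a) - s * dg a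

theorem FF_mono (a s t : ℝ) (ha : 0 < a) (hs : 0 < s) (hst : s ≤ t) :
    t * FF a s ≤ s * FF a t := by
  have ht : 0 < t := lt_of_lt_of_le hs hst
  have hc := Real.convexOn_log_Gamma
  have hm1 : a ∈ Set.Ioi (0 : ℝ) := ha
  have hm2 : a + t ∈ Set.Ioi (0 : ℝ) := by
    show (0 : ℝ) < a + t
    linarith
  have hs1 : (0 : ℝ) ≤ 1 - s / t := sub_nonneg.2 ((div_le_one ht).2 hst)
  have hs2 : (0 : ℝ) ≤ s / t := by positivity
  have h1 := hc.2 hm1 hm2 hs1 hs2 (by ring)
  simp only [smul_eq_mul, Function.comp_apply] at h1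
  have h2 : (1 - s / t) * a + s / t * (a + t) = a + s := by
    field_simp
    ring
  rw [h2] at h1
  have h3 := mul_le_mul_of_nonneg_left h1 ht.le
  have h4 : t * ((1 - s / t) * Real.log (Real.Gamma a) + s / t * Real.log (Real.Gamma (a + t)))
      = (t - s) * Real.log (Real.Gamma a) + s * Real.log (Real.Gamma (a + t)) := by
    field_simp
  rw [h4] at h3
  unfold FF
  nlinarith [h3]

theorem FF_key (hSer : P_SER) (hConv : P_CONV) (hQuad : P_QUAD) (hQuad2 : P_QUAD2) (r : ℕ)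
    (hr : 0 < r) (M nu : ℝ) (hnu : 0 ≤ nu) (hM : nu ≤ M) (h : 4 * ((r : ℝ) - 1) * nu ≤ M) :
    M * FF (1 / 2) nu ≤ nu * FF (r / 2) M := by
  rcases hnu.lt_or_eq with hp | hz
  swap
  · rw [← hz]
    simp [FF]
  have hM0 : 0 < M := lt_of_lt_of_le hp hM
  rcases Nat.lt_or_ge 1 r with h2 | h2
  · have hr2 : (2 : ℝ) ≤ r := by exact_mod_cast h2
    have hq := (hQuad2 (hQuad hSer)).1 nu hnu
    have hc := hConv hSer r (4 * nu) h2 (by positivity)
    have hs : 0 < 4 * ((r : ℝ) - 1) * nu := by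
      have : 0 < (r : ℝ) - 1 := by linarith
      positivity
    have hm := FF_mono (r / 2) _ M (by positivity) hs h
    have h3 : 4 * ((r : ℝ) - 1) * FF (1 / 2) nu ≤ FF (r / 2) (4 * ((r : ℝ) - 1) * nu) := by
      have h4 : FF (r / 2) (4 * ((r : ℝ) - 1) * nu)
          = Real.log (Real.Gamma (r / 2 + (r - 1) * (4 * nu))) - Real.log (Real.Gamma (r / 2))
            - (r - 1) * (4 * nu) * dg (r / 2) := by
        unfold FF
        have h5 : 4 * ((r : ℝ) - 1) * nu = (r - 1) * (4 * nu) := by ring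
        rw [h5]
      rw [h4]
      refine le_trans ?_ hc
      have h6 := mul_le_mul_of_nonneg_left hq (by linarith : (0 : ℝ) ≤ (r : ℝ) - 1)
      unfold FF
      linarith
    have h7 : 0 < 4 * ((r : ℝ) - 1) := by linarith
    have h8 := mul_le_mul_of_nonneg_left h3 hM0.le
    have h9 : (4 * ((r : ℝ) - 1)) * (M * FF (1 / 2) nu) ≤ (4 * ((r : ℝ) - 1)) * (nu * FF (r / 2) M) := by
      nlinarith
    exact le_of_mul_le_mul_left h9 h7
  · have h1 : r = 1 := by omega
    subst h1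
    have := FF_mono (1 / 2) nu M (by norm_num) hp hM
    simpa using this

theorem mom_le (hMom : P_MOM) (hK : P_KAP) (hK2 : P_KAP2)
    (hdg : dg (1 / 2) = -(Real.eulerMascheroniConstant + 2 * Real.log 2)) (nu : ℝ) (hnu : 0 ≤ nu) :
    mom nu ≤ Real.exp (kap * nu + FF (1 / 2) nu) := by
  have hk := hK2 hMom hK
  have hm : mom nu = 2 ^ nu * Real.Gamma (1 / 2 + nu) / Real.sqrt Real.pi := by
    unfold mom
    rw [(hMom (2 * nu) (by linarith)).2]
    congr 2
    · congr 1
      ring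
    · congr 1
      ring
  have hG0 : 0 < Real.Gamma (1 / 2 + nu) := Real.Gamma_pos_of_pos (by positivity)
  have hpi : 0 < Real.sqrt Real.pi := Real.sqrt_pos.2 Real.pi_pos
  have hpos : 0 < mom nu := by
    rw [hm]
    positivity
  have hl : Real.log (mom nu) = nu * Real.log 2 + Real.log (Real.Gamma (1 / 2 + nu))
      - Real.log (Real.sqrt Real.pi) := by
    rw [hm, Real.log_div (by positivity) hpi.ne', Real.log_mul (by positivity) hG0.ne',
      Real.log_rpow (by norm_num)]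
  rw [← Real.exp_log hpos]
  apply Real.exp_le_exp.2
  rw [hl]
  unfold FF
  rw [Real.Gamma_one_half_eq, hdg]
  nlinarith [mul_le_mul_of_nonneg_right hk hnu]

theorem unit_case3 (hS : P_SCAL) (hM : P_MARG) (hK : P_KAP) (hMom : P_MOM) (hK2 : P_KAP2)
    (hR : P_RMOM) (hI : P_IND) (hKR : P_KAPR) (hSer : P_SER) (hConv : P_CONV) (hQuad : P_QUAD)
    (hQuad2 : P_QUAD2) {r d : ℕ}
    (hr : 0 < r) (b : Fin d → Fin r → ℝ) (hb : ∀ i, ∑ j, b i j ^ 2 = 1) (nu : Fin d → ℝ)
    (hnu : ∀ i, 0 ≤ nu i) (hpos : 0 < ∑ i, nu i)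
    (h : ∀ i, 4 * ((r : ℝ) - 1) * nu i ≤ ∑ j, nu j) :
    ∏ i, mom (nu i) ≤ ∫ x, Pr b nu x ∂(Gam r) := by
  refine le_trans ?_ (lower3 hS hM hK hR hI hKR hr b hb nu hnu hpos)
  set M := ∑ i, nu i with hMd
  have hr' : (0 : ℝ) < r := by exact_mod_cast hr
  have hdg := (hQuad2 (hQuad hSer)).2
  have hkr := (hKR hM hK hR r hr).2
  have hsum : ∑ i, FF (1 / 2) (nu i) ≤ FF (r / 2) M := by
    have h1 : ∀ i ∈ (Finset.univ : Finset (Fin d)),
        M * FF (1 / 2) (nu i) ≤ nu i * FF (r / 2) M := fun i _ =>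
      FF_key hSer hConv hQuad hQuad2 r hr M (nu i) (hnu i)
        (Finset.single_le_sum (fun j _ => hnu j) (Finset.mem_univ i)) (h i)
    have h2 := Finset.sum_le_sum h1
    rw [← Finset.mul_sum, ← Finset.sum_mul, ← hMd] at h2
    exact le_of_mul_le_mul_left h2 hpos
  have hGr : 0 < Real.Gamma (r / 2) := Real.Gamma_pos_of_pos (by positivity)
  have hGM : 0 < Real.Gamma (r / 2 + M) := Real.Gamma_pos_of_pos (by positivity)
  have hmom : ∫ x, (∑ j, x j ^ 2) ^ M ∂(Gam r)
      = Real.exp (M * Real.log 2 + FF (r / 2) M + M * dg (r / 2)) := by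
    rw [(hR r M hr hpos.le).2]
    have h3 : 0 < 2 ^ M * Real.Gamma (r / 2 + M) / Real.Gamma (r / 2) := by positivity
    rw [← Real.exp_log h3]
    congr 1
    rw [Real.log_div (by positivity) hGr.ne', Real.log_mul (by positivity) hGM.ne',
      Real.log_rpow (by norm_num)]
    unfold FF
    ring
  rw [hmom, ← Real.exp_add]
  calc ∏ i, mom (nu i)
      ≤ ∏ i, Real.exp (kap * nu i + FF (1 / 2) (nu i)) := by
        apply Finset.prod_le_prod (fun i _ => ?_)
          (fun i _ => mom_le hMom hK hK2 hdg (nu i) (hnu i))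
        exact integral_nonneg (fun x => Real.rpow_nonneg (abs_nonneg _) _)
    _ = Real.exp (kap * M + ∑ i, FF (1 / 2) (nu i)) := by
        rw [← Real.exp_sum, Finset.sum_add_distrib, ← Finset.mul_sum]
    _ ≤ _ := by
        apply Real.exp_le_exp.2
        nlinarith [mul_le_mul_of_nonneg_right hkr hpos.le]

theorem core3 (hS : P_SCAL) (hM : P_MARG) (hK : P_KAP) (hMom : P_MOM) (hK2 : P_KAP2)
    (hRm : P_RMOM) (hI : P_IND) (hKR : P_KAPR) (hSer : P_SER) (hConv : P_CONV) (hQuad : P_QUAD)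
    (hQuad2 : P_QUAD2) (r d : ℕ)
    (b : Fin d → Fin r → ℝ) (nu : Fin d → ℝ)
    (hnu : ∀ i, 0 ≤ nu i) (h : ∀ i, 4 * ((r : ℝ) - 1) * nu i ≤ ∑ j, nu j) :
    ∏ i, ∫ x, |lf (b i) x| ^ (2 * nu i) ∂(Gam r) ≤ ∫ x, Pr b nu x ∂(Gam r) := by
  rcases Nat.eq_zero_or_pos r with rfl | hr
  · have h1 : ∀ i (x : Fin 0 → ℝ), lf (b i) x = 0 := fun i x => by simp [lf]
    have h2 : ∀ x, Pr b nu x = ∏ i, |(0 : ℝ)| ^ (2 * nu i) := fun x => by
      unfold Pr
      exact Finset.prod_congr rfl (fun i _ => by rw [h1])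
    simp only [h1, h2, integral_const, smul_eq_mul, probReal_univ, one_mul]
    exact le_rfl
  rcases (Finset.sum_nonneg (fun i _ => hnu i) : 0 ≤ ∑ i, nu i).lt_or_eq with hpos | hz
  swap
  · have h1 : ∀ i, nu i = 0 := fun i =>
      (Finset.sum_eq_zero_iff_of_nonneg (fun i _ => hnu i)).1 hz.symm i (Finset.mem_univ i)
    have h2 : ∀ x, Pr b nu x = 1 := fun x => by
      unfold Pr
      exact Finset.prod_eq_one (fun i _ => by rw [h1 i]; simp)
    simp [h1, h2]
  by_cases hbad : ∃ i, (∑ j, b i j ^ 2 = 0) ∧ nu i ≠ 0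
  · obtain ⟨i, hi, hi0⟩ := hbad
    have hbi : ∀ j, b i j = 0 := by
      intro j
      have := (Finset.sum_eq_zero_iff_of_nonneg (fun j _ => sq_nonneg (b i j))).1 hi j
        (Finset.mem_univ j)
      exact pow_eq_zero_iff (two_ne_zero) |>.1 this
    have h1 : ∫ x, |lf (b i) x| ^ (2 * nu i) ∂(Gam r) = 0 := by
      have : ∀ x, |lf (b i) x| ^ (2 * nu i) = 0 := by
        intro x
        have : lf (b i) x = 0 := by simp [lf, hbi]
        rw [this, abs_zero, Real.zero_rpow (by simpa using hi0)]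
      simp [this]
    rw [Finset.prod_eq_zero (Finset.mem_univ i) h1]
    exact integral_nonneg (Pr_nonneg b nu)
  · push Not at hbad
    -- normalisation
    have hunit : ∀ i, ∃ (c : ℝ) (u : Fin r → ℝ), 0 < c ∧ ∑ j, u j ^ 2 = 1 ∧
        ∀ x, |lf (b i) x| ^ (2 * nu i) = c ^ (2 * nu i) * |lf u x| ^ (2 * nu i) := by
      intro i
      by_cases hi : ∑ j, b i j ^ 2 = 0
      · refine ⟨1, Pi.single ⟨0, hr⟩ 1, one_pos, ?_, ?_⟩
        · rw [Finset.sum_eq_single_of_mem (⟨0, hr⟩ : Fin r) (Finset.mem_univ _)]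
          · simp
          · intro j _ hj
            simp [Pi.single_eq_of_ne hj]
        · intro x
          rw [hbad i hi]
          simp
      · have hp : 0 < ∑ j, b i j ^ 2 :=
          lt_of_le_of_ne (Finset.sum_nonneg (fun _ _ => sq_nonneg _)) (Ne.symm hi)
        set c := Real.sqrt (∑ j, b i j ^ 2) with hc
        have hc0 : 0 < c := Real.sqrt_pos.2 hp
        have hc2 : c ^ 2 = ∑ j, b i j ^ 2 := Real.sq_sqrt hp.le
        refine ⟨c, fun j => b i j / c, hc0, ?_, ?_⟩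
        · simp only [div_pow]
          rw [← Finset.sum_div, ← hc2]
          exact div_self (by positivity)
        · intro x
          have h1 : lf (b i) x = c * lf (fun j => b i j / c) x := by
            unfold lf
            rw [Finset.mul_sum]
            refine Finset.sum_congr rfl (fun j _ => ?_)
            field_simp
          rw [h1, abs_mul, abs_of_pos hc0, Real.mul_rpow hc0.le (abs_nonneg _)]
    choose c u hc hu hlu using hunit
    have h1 : ∀ i, ∫ x, |lf (b i) x| ^ (2 * nu i) ∂(Gam r) = c i ^ (2 * nu i) * mom (nu i) := by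
      intro i
      simp only [hlu i]
      rw [integral_const_mul, mom_lf hM (u i) (hu i)]
    have h2 : ∀ x, Pr b nu x = (∏ i, c i ^ (2 * nu i)) * Pr u nu x := by
      intro x
      unfold Pr
      rw [← Finset.prod_mul_distrib]
      exact Finset.prod_congr rfl (fun i _ => hlu i x)
    simp only [h1, h2]
    rw [Finset.prod_mul_distrib, integral_const_mul]
    exact mul_le_mul_of_nonneg_left (unit_case3 hS hM hK hMom hK2 hRm hI hKR hSer hConv hQuad hQuad2 hr u hu nu hnu hpos h)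
      (Finset.prod_nonneg (fun i _ => Real.rpow_nonneg (hc i).le _))

theorem final3 (hS : P_SCAL) (hM : P_MARG) (hK : P_KAP) (hMom : P_MOM) (hK2 : P_KAP2)
    (hRm : P_RMOM) (hI : P_IND) (hKR : P_KAPR) (hSer : P_SER) (hConv : P_CONV) (hQuad : P_QUAD)
    (hQuad2 : P_QUAD2) (hR : P_REP) (d r : ℕ)
    (mu : Measure (Fin d → ℝ)) (hmu : IsGaussian mu) (h0 : ∫ x, x ∂mu = 0)
    (hr : (Matrix.of fun i k : Fin d => ∫ x, x i * x k ∂mu).rank ≤ r)
    (nu : Fin d → ℝ) (hnu : ∀ i, 0 ≤ nu i) (h : ∀ i, 4 * ((r : ℝ) - 1) * nu i ≤ ∑ j, nu j) :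
    ∏ i, ∫ x, |x i| ^ (2 * nu i) ∂mu ≤ ∫ x, ∏ i, |x i| ^ (2 * nu i) ∂mu := by
  obtain ⟨b, hb⟩ := hR d r mu hmu h0 hr
  have hT : Measurable (fun (x : Fin r → ℝ) (i : Fin d) => ∑ j, b i j * x j) := by fun_prop
  have h1 : ∀ i, ∫ x, |x i| ^ (2 * nu i) ∂mu = ∫ x, |lf (b i) x| ^ (2 * nu i) ∂(Gam r) := by
    intro i
    rw [hb, integral_map hT.aemeasurable]
    · rfl
    · exact ((measurable_pi_apply i).abs.pow_const _).aestronglyMeasurable
  have h2 : ∫ x, ∏ i, |x i| ^ (2 * nu i) ∂mu = ∫ x, Pr b nu x ∂(Gam r) := by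
    rw [hb, integral_map hT.aemeasurable]
    · rfl
    · exact (Finset.measurable_prod _
        (fun i _ => (measurable_pi_apply i).abs.pow_const _)).aestronglyMeasurable
  simp only [h1]
  rw [h2]
  exact core3 hS hM hK hMom hK2 hRm hI hKR hSer hConv hQuad hQuad2 r d b nu hnu h

end Pool.Agent.W2helper31.GP
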