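import Pool.Agent.W2helper31.GP.Stm3

set_option autoImplicit false

/-!
# Project GP (MP_130bb2_pr), planar vectors: equal exponents `nu ≥ 1/2`, any number of forms, statements

Idea: `T = ∏ <u_i, x>` is a trigonometric polynomial; averaging over the rotations by `π j / n` with signs
`(-1)^j` leaves `2^(1-n) Re (conj u z^n)`; so for `2 nu ≥ 1` its `L^(2 nu)` norm is at least that of
`2^(1-n) |z|^n cos (n θ)`.
-/

open MeasureTheory ProbabilityTheory
open scoped ENNReal NNReal

namespace Pool.Agent.W2helper31.GP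

/-- the complex number of a point of the plane -/
noncomputable def toC (x : Fin 2 → ℝ) : ℂ := ⟨x 0, x 1⟩

/-- rotation of the plane -/
noncomputable def rot (f : ℝ) (x : Fin 2 → ℝ) : Fin 2 → ℝ :=
  ![Real.cos f * x 0 - Real.sin f * x 1, Real.sin f * x 0 + Real.cos f * x 1]

/-- PIECE ROT. Rotation invariance of the standard normal law of the plane. Proof: e.g. characteristic
functions / `IsGaussian` as in `Pool.Agent.W2helper20.GP.Rep`, or the density (`gam_eq` in
`Pool.Agent.W2helper88.GP.RMom`) and determinant 1. -/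
def P_ROT : Prop := ∀ f : ℝ, (Gam 2).map (rot f) = Gam 2

/-- PIECE ALG. Proof: `Re w = (w + conj w)/2`; expand the product over subsets `S` of `Fin n`
(`Finset.prod_add`): with `k = #S` the term has the factor `ζ^(j (2 k - n))`, `ζ = exp (π i/n)`, times
`(-1)^j = ζ^(j n)`, so `∑_j (ζ^(2 k))^j`, which is `n` for `k = 0, n` and `0` for `0 < k < n` (geometric sum,
`ζ^2` is a primitive `n`-th root of unity: `Complex.isPrimitiveRoot_exp`, `IsPrimitiveRoot.geom_sum_eq_zero`). -/
def P_ALG : Prop :=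
  ∀ (n : ℕ) (u : Fin n → ℂ) (z : ℂ), 0 < n →
    ∑ j ∈ Finset.range n, (-1 : ℝ) ^ j *
        ∏ i, (starRingEnd ℂ (u i) * (Complex.exp ((Real.pi * j / n : ℝ) * Complex.I) * z)).re
      = n * (2 / 2 ^ n) * (starRingEnd ℂ (∏ i, u i) * z ^ n).re

/-- PIECE ANG. Proof: `Gam 2` has the density `exp (-|x|^2/2)/(2 π)` (`gam_eq` in
`Pool.Agent.W2helper88.GP.RMom`), `volume_preserving_finTwoArrow`, polar coordinates
`integral_comp_polarCoord_symm`; for `z = r e^(iθ)`, `w = e^(iφ)` the integrand is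
`|cos (n θ + φ)|^(2 nu)`; the radial integral is `1`, and `∫_{-π}^{π} G (n θ + φ) dθ = ∫_{-π}^{π} G` for the
`2π`-periodic `G = |cos|^(2 nu)` (`Function.Periodic.intervalIntegral_add_zsmul_eq`,
`intervalIntegral.integral_comp_mul_add`). -/
def P_ANG : Prop :=
  ∀ (n : ℕ) (w : ℂ) (nu : ℝ), 0 < n → ‖w‖ = 1 → 0 < nu →
    ∫ x, |(w * toC x ^ n).re| ^ (2 * nu) * (∑ j, x j ^ 2) ^ (-(n * nu)) ∂(Gam 2)
      = 1 / (2 * Real.pi) * ∫ θ in (-Real.pi)..Real.pi, |Real.cos θ| ^ (2 * nu)

end Pool.Agent.W2helper31.GP
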