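import Mathlib
import Pool.Agent.W2helper31.GP.Core3
import Pool.Agent.W2helper31.GP.Stm4

set_option autoImplicit false

/-!
# The Gaussian product inequality for planar vectors and equal exponents
-/

open MeasureTheory ProbabilityTheory
open scoped ENNReal NNReal

namespace Pool.Agent.W2helper31.GP

theorem lf_re (b x : Fin 2 → ℝ) : lf b x = (starRingEnd ℂ (toC b) * toC x).re := by
  simp [lf, toC, Fin.sum_univ_two, Complex.mul_re]

theorem toC_rot (f : ℝ) (x : Fin 2 → ℝ) :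
    toC (rot f x) = Complex.exp ((f : ℝ) * Complex.I) * toC x := by
  apply Complex.ext
  · simp [toC, rot, Complex.exp_ofReal_mul_I_re, Complex.exp_ofReal_mul_I_im]
  · simp [toC, rot, Complex.exp_ofReal_mul_I_re, Complex.exp_ofReal_mul_I_im]
    ring

theorem avg (hA : P_ALG) {n : ℕ} (hn : 0 < n) (b : Fin n → Fin 2 → ℝ) (x : Fin 2 → ℝ) (p : ℝ)
    (hp : 1 ≤ p) :
    |(2 / 2 ^ n) * (starRingEnd ℂ (∏ i, toC (b i)) * toC x ^ n).re| ^ p ≤
      ∑ j ∈ Finset.range n, (1 / n : ℝ) * (∏ i, |lf (b i) (rot (Real.pi * j / n) x)|) ^ p := by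
  have hn' : (0 : ℝ) < n := by exact_mod_cast hn
  have h1 := hA n (fun i => toC (b i)) (toC x) hn
  have h2 : (2 / 2 ^ n) * (starRingEnd ℂ (∏ i, toC (b i)) * toC x ^ n).re
      = ∑ j ∈ Finset.range n, (1 / n : ℝ) *
        ((-1 : ℝ) ^ j * ∏ i, lf (b i) (rot (Real.pi * j / n) x)) := by
    rw [← Finset.mul_sum]
    have h3 : ∑ j ∈ Finset.range n, (-1 : ℝ) ^ j * ∏ i, lf (b i) (rot (Real.pi * j / n) x)
        = n * (2 / 2 ^ n) * (starRingEnd ℂ (∏ i, toC (b i)) * toC x ^ n).re := by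
      rw [← h1]
      refine Finset.sum_congr rfl (fun j _ => ?_)
      congr 1
      refine Finset.prod_congr rfl (fun i _ => ?_)
      rw [lf_re, toC_rot]
    rw [h3]
    field_simp
  have h4 : |(2 / 2 ^ n) * (starRingEnd ℂ (∏ i, toC (b i)) * toC x ^ n).re|
      ≤ ∑ j ∈ Finset.range n, (1 / n : ℝ) * ∏ i, |lf (b i) (rot (Real.pi * j / n) x)| := by
    rw [h2]
    refine le_trans (Finset.abs_sum_le_sum_abs _ _) (Finset.sum_le_sum (fun j _ => ?_))
    rw [abs_mul, abs_mul, abs_pow, abs_neg, abs_one, one_pow, one_mul, Finset.abs_prod,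
      abs_of_pos (by positivity : (0 : ℝ) < 1 / n)]
  refine le_trans (Real.rpow_le_rpow (abs_nonneg _) h4 (by linarith)) ?_
  refine Real.rpow_arith_mean_le_arith_mean_rpow _ _ _ (fun j _ => by positivity) ?_
    (fun j _ => Finset.prod_nonneg (fun _ _ => abs_nonneg _)) hp
  rw [Finset.sum_const, Finset.card_range, nsmul_eq_mul]
  field_simp

theorem Pr_eq {n : ℕ} (b : Fin n → Fin 2 → ℝ) (nu : ℝ) (x : Fin 2 → ℝ) :
    (∏ i, |lf (b i) x|) ^ (2 * nu) = Pr b (fun _ => nu) x := by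
  unfold Pr
  rw [Real.finsetProd_rpow _ _ (fun i _ => abs_nonneg _)]

theorem rot_meas (f : ℝ) : Measurable (rot f) := by
  unfold rot
  refine measurable_pi_lambda _ (fun i => ?_)
  fin_cases i
  · simp only [Fin.zero_eta, Matrix.cons_val_zero]
    fun_prop
  · simp only [Fin.mk_one, Matrix.cons_val_one]
    fun_prop

/-- averaging, integrated -/
theorem avg_int (hA : P_ALG) (hRot : P_ROT) {n : ℕ} (hn : 0 < n) (b : Fin n → Fin 2 → ℝ) (nu : ℝ)
    (hnu : 1 / 2 ≤ nu) (hi : Integrable (Pr b (fun _ => nu)) (Gam 2)) :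
    ∫ x, |(2 / 2 ^ n) * (starRingEnd ℂ (∏ i, toC (b i)) * toC x ^ n).re| ^ (2 * nu) ∂(Gam 2) ≤
      ∫ x, Pr b (fun _ => nu) x ∂(Gam 2) := by
  have hn' : (0 : ℝ) < n := by exact_mod_cast hn
  have hmp : ∀ f : ℝ, MeasurePreserving (rot f) (Gam 2) (Gam 2) := fun f =>
    ⟨rot_meas f, hRot f⟩
  have hij : ∀ f : ℝ, Integrable (fun x => Pr b (fun _ => nu) (rot f x)) (Gam 2) := fun f =>
    (hmp f).integrable_comp_of_integrable hi
  have hI : ∀ f : ℝ, ∫ x, Pr b (fun _ => nu) (rot f x) ∂(Gam 2)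
      = ∫ x, Pr b (fun _ => nu) x ∂(Gam 2) := by
    intro f
    have h1 : ∫ x, Pr b (fun _ => nu) x ∂((Gam 2).map (rot f))
        = ∫ x, Pr b (fun _ => nu) (rot f x) ∂(Gam 2) :=
      integral_map (rot_meas f).aemeasurable (Pr_meas b _).aestronglyMeasurable
    rw [← h1, hRot f]
  have hg : Integrable (fun x => ∑ j ∈ Finset.range n, (1 / n : ℝ) *
      Pr b (fun _ => nu) (rot (Real.pi * j / n) x)) (Gam 2) :=
    integrable_finsetSum _ (fun j _ => (hij _).const_mul _)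
  have h2 : ∫ x, |(2 / 2 ^ n) * (starRingEnd ℂ (∏ i, toC (b i)) * toC x ^ n).re| ^ (2 * nu)
      ∂(Gam 2) ≤ ∫ x, ∑ j ∈ Finset.range n, (1 / n : ℝ) *
      Pr b (fun _ => nu) (rot (Real.pi * j / n) x) ∂(Gam 2) := by
    refine integral_mono_of_nonneg
      (Filter.Eventually.of_forall (fun x => Real.rpow_nonneg (abs_nonneg _) _)) hg
      (Filter.Eventually.of_forall (fun x => ?_))
    have h3 := avg hA hn b x (2 * nu) (by linarith)
    simp only [Pr_eq] at h3
    exact h3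
  refine le_trans h2 (le_of_eq ?_)
  rw [integral_finsetSum _ (fun j _ => (hij _).const_mul _)]
  simp only [integral_const_mul, hI]
  rw [Finset.sum_const, Finset.card_range, nsmul_eq_mul]
  field_simp

theorem toC_meas : Measurable toC := by
  unfold toC
  have h : (fun x : Fin 2 → ℝ => (⟨x 0, x 1⟩ : ℂ))
      = fun x => ((x 0 : ℝ) : ℂ) + ((x 1 : ℝ) : ℂ) * Complex.I := by
    funext x
    apply Complex.ext <;> simp
  rw [h]
  fun_prop

theorem toC_smul (c : ℝ) (x : Fin 2 → ℝ) : toC (c • x) = (c : ℂ) * toC x := by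
  apply Complex.ext <;> simp [toC]

/-- factorisation of a homogeneous function -/
theorem fac (hS : P_SCAL) (hR : P_RMOM) (hI : P_IND) (M : ℝ) (hM : 0 < M) (f : (Fin 2 → ℝ) → ℝ)
    (hf : Measurable f) (hf0 : ∀ x, 0 ≤ f x)
    (hh : ∀ (t : ℝ) (x : Fin 2 → ℝ), 0 < t → f (Real.sqrt t • x) = t ^ M * f x) :
    ∫ x, f x ∂(Gam 2) = (2 ^ M * Real.Gamma (1 + M)) *
      ∫ x, f x * (∑ j, x j ^ 2) ^ (-M) ∂(Gam 2) := by
  have hsq0 : ∀ x : Fin 2 → ℝ, 0 ≤ ∑ j, x j ^ 2 :=
    fun x => Finset.sum_nonneg (fun _ _ => sq_nonneg _)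
  have hsqm : Measurable (fun x : Fin 2 → ℝ => ∑ j, x j ^ 2) := by fun_prop
  have h1 := hI hS hR 2 M two_pos hM (fun x => ENNReal.ofReal (f x)) hf.ennreal_ofReal (by
    intro t x ht
    rw [hh t x ht, ENNReal.ofReal_mul (by positivity)])
  have h2 : ∫⁻ x, ENNReal.ofReal (f x) * ENNReal.ofReal ((∑ j, x j ^ 2) ^ (-M)) ∂(Gam 2)
      = ∫⁻ x, ENNReal.ofReal (f x * (∑ j, x j ^ 2) ^ (-M)) ∂(Gam 2) := by
    refine lintegral_congr (fun x => ?_)
    rw [← ENNReal.ofReal_mul (hf0 _)]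
  rw [h2] at h1
  have h3 : ∫ x : Fin 2 → ℝ, (∑ j, x j ^ 2) ^ M ∂(Gam 2) = 2 ^ M * Real.Gamma (1 + M) := by
    rw [(hR 2 M two_pos hM.le).2]
    norm_num
  rw [integral_eq_lintegral_of_nonneg_ae (Filter.Eventually.of_forall hf0) hf.aestronglyMeasurable,
    h1, ENNReal.toReal_mul, ← h3,
    integral_eq_lintegral_of_nonneg_ae
      (Filter.Eventually.of_forall (fun x => Real.rpow_nonneg (hsq0 x) _))
      (hsqm.pow_const _).aestronglyMeasurable,
    integral_eq_lintegral_of_nonneg_ae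
      (Filter.Eventually.of_forall (fun x => mul_nonneg (hf0 x) (Real.rpow_nonneg (hsq0 x) _)))
      (hf.mul (hsqm.pow_const _)).aestronglyMeasurable]

theorem mean_h (hS : P_SCAL) (hR : P_RMOM) (hI : P_IND) (hAng : P_ANG) (n : ℕ) (w : ℂ) (nu : ℝ)
    (hn : 0 < n) (hw : ‖w‖ = 1) (hnu : 0 < nu) :
    ∫ x, |(w * toC x ^ n).re| ^ (2 * nu) ∂(Gam 2) = (2 ^ (n * nu) * Real.Gamma (1 + n * nu)) *
      (1 / (2 * Real.pi) * ∫ θ in (-Real.pi)..Real.pi, |Real.cos θ| ^ (2 * nu)) := by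
  have hn' : (0 : ℝ) < n := by exact_mod_cast hn
  rw [fac hS hR hI (n * nu) (by positivity) (fun x => |(w * toC x ^ n).re| ^ (2 * nu)) ?_ ?_ ?_,
    hAng n w nu hn hw hnu]
  · have h1 : Measurable (fun x => (w * toC x ^ n).re) :=
      Complex.measurable_re.comp ((toC_meas.pow_const n).const_mul w)
    exact h1.abs.pow_const _
  · exact fun x => Real.rpow_nonneg (abs_nonneg _) _
  · intro t x ht
    have h2 : (w * toC (Real.sqrt t • x) ^ n).re = Real.sqrt t ^ n * (w * toC x ^ n).re := by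
      rw [toC_smul, mul_pow, ← Complex.ofReal_pow, mul_left_comm, Complex.re_ofReal_mul]
    rw [h2, abs_mul, abs_of_nonneg (by positivity : (0 : ℝ) ≤ Real.sqrt t ^ n),
      Real.mul_rpow (by positivity) (abs_nonneg _)]
    congr 1
    rw [← Real.rpow_natCast, ← Real.rpow_mul (Real.sqrt_nonneg _), Real.sqrt_eq_rpow,
      ← Real.rpow_mul ht.le]
    congr 1
    ring

theorem planar_unit (hS : P_SCAL) (hM : P_MARG) (hK : P_KAP) (hMom : P_MOM)
    (hR : P_RMOM) (hI : P_IND) (hRot : P_ROT) (hAlg : P_ALG) (hAng : P_ANG) {d : ℕ} (hd : 0 < d)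
    (b : Fin d → Fin 2 → ℝ) (hb : ∀ i, ∑ j, b i j ^ 2 = 1) (nu : ℝ) (hnu : 1 / 2 ≤ nu) :
    ∏ _i : Fin d, mom nu ≤ ∫ x, Pr b (fun _ => nu) x ∂(Gam 2) := by
  have hnu0 : 0 < nu := by linarith
  have hd' : (0 : ℝ) < d := by exact_mod_cast hd
  have hd1 : (1 : ℝ) ≤ d := by exact_mod_cast hd
  have hi : Integrable (Pr b (fun _ => nu)) (Gam 2) :=
    (lower hS hM hK two_pos b hb (fun _ => nu) (fun _ => hnu0.le) (by
      rw [Finset.sum_const, Finset.card_univ, Fintype.card_fin, nsmul_eq_mul]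
      positivity)).1
  refine le_trans ?_ (avg_int hAlg hRot hd b nu hnu hi)
  set w : ℂ := starRingEnd ℂ (∏ i, toC (b i)) with hw
  have hw1 : ‖w‖ = 1 := by
    rw [hw, RCLike.norm_conj, norm_prod]
    refine Finset.prod_eq_one (fun i _ => ?_)
    have h1 : ‖toC (b i)‖ ^ 2 = 1 := by
      rw [← Complex.normSq_eq_norm_sq, Complex.normSq_apply]
      have := hb i
      rw [Fin.sum_univ_two] at this
      simp only [toC]
      linarith
    nlinarith [norm_nonneg (toC (b i))]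
  set C : ℝ := 1 / (2 * Real.pi) * ∫ θ in (-Real.pi)..Real.pi, |Real.cos θ| ^ (2 * nu) with hC
  have hG1 : 0 < Real.Gamma (1 + nu) := Real.Gamma_pos_of_pos (by positivity)
  have hG2 : 0 < Real.Gamma (1 + 2 * nu) := Real.Gamma_pos_of_pos (by positivity)
  have hGn : 0 < Real.Gamma (1 + d * nu) := Real.Gamma_pos_of_pos (by positivity)
  -- the mean of the extremal function
  have hint : ∫ x, |(2 / 2 ^ d) * (w * toC x ^ d).re| ^ (2 * nu) ∂(Gam 2)
      = (2 / 2 ^ d : ℝ) ^ (2 * nu) * ((2 ^ (d * nu) * Real.Gamma (1 + d * nu)) * C) := by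
    have h1 : ∀ x, |(2 / 2 ^ d) * (w * toC x ^ d).re| ^ (2 * nu)
        = (2 / 2 ^ d : ℝ) ^ (2 * nu) * |(w * toC x ^ d).re| ^ (2 * nu) := by
      intro x
      rw [abs_mul, abs_of_pos (by positivity : (0 : ℝ) < 2 / 2 ^ d),
        Real.mul_rpow (by positivity) (abs_nonneg _)]
    simp only [h1]
    rw [integral_const_mul, mean_h hS hR hI hAng d w nu hd hw1 hnu0]
  -- the moment
  have hmomC : mom nu = (2 ^ nu * Real.Gamma (1 + nu)) * C := by
    have h1 := mean_h hS hR hI hAng 1 1 nu one_pos (by simp) hnu0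
    have h2 : ∫ x : Fin 2 → ℝ, |((1 : ℂ) * toC x ^ 1).re| ^ (2 * nu) ∂(Gam 2) = mom nu := by
      have h3 := mom_lf hM (r := 2) ![1, 0] (by simp [Fin.sum_univ_two]) nu
      rw [← h3]
      refine integral_congr_ae (Filter.Eventually.of_forall (fun x => ?_))
      simp [lf, toC, Fin.sum_univ_two]
    rw [← h2, h1]
    simp [hC]
  have hm : mom nu = 2 ^ nu * Real.Gamma (1 / 2 + nu) / Real.sqrt Real.pi := by
    unfold mom
    rw [(hMom (2 * nu) (by linarith)).2]
    congr 2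
    · congr 1
      ring
    · congr 1
      ring
  have hdup := Real.Gamma_mul_Gamma_add_half (1 / 2 + nu)
  have e1 : 1 / 2 + nu + 1 / 2 = 1 + nu := by ring
  have e2 : 2 * (1 / 2 + nu) = 1 + 2 * nu := by ring
  have e3 : 1 - (1 + 2 * nu) = -(2 * nu) := by ring
  rw [e1, e2, e3] at hdup
  have hpi : 0 < Real.sqrt Real.pi := Real.sqrt_pos.2 Real.pi_pos
  have hm2 : mom nu = 2 ^ (-nu) * (Real.Gamma (1 + 2 * nu) / Real.Gamma (1 + nu)) := by
    have h4 : Real.Gamma (1 / 2 + nu) = Real.Gamma (1 + 2 * nu) * 2 ^ (-(2 * nu)) *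
        Real.sqrt Real.pi / Real.Gamma (1 + nu) := by
      rw [eq_div_iff hG1.ne']
      exact hdup
    have h5 : (2 : ℝ) ^ (-nu) = 2 ^ nu * 2 ^ (-(2 * nu)) := by
      rw [← Real.rpow_add two_pos]
      congr 1
      ring
    rw [hm, h4, h5]
    field_simp
  have hmpos : 0 < mom nu := by
    rw [hm2]
    positivity
  -- the Gamma inequality
  have hgam : (Real.Gamma (1 + 2 * nu) / Real.Gamma (1 + nu)) ^ ((d : ℝ) - 1)
      ≤ Real.Gamma (1 + d * nu) / Real.Gamma (1 + nu) := by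
    rw [← Real.exp_log (by positivity : 0 < Real.Gamma (1 + d * nu) / Real.Gamma (1 + nu)),
      Real.rpow_def_of_pos (by positivity)]
    apply Real.exp_le_exp.2
    rw [Real.log_div hG2.ne' hG1.ne', Real.log_div hGn.ne' hG1.ne']
    rcases hd1.lt_or_eq with h1 | h1
    · have h2 : 2 ≤ (d : ℝ) := by
        have : 1 < d := by exact_mod_cast h1
        exact_mod_cast this
      have h3 := FF_mono (1 + nu) nu (((d : ℝ) - 1) * nu) (by positivity) hnu0 (by nlinarith)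
      unfold FF at h3
      have e4 : 1 + nu + nu = 1 + 2 * nu := by ring
      have e5 : 1 + nu + ((d : ℝ) - 1) * nu = 1 + d * nu := by ring
      rw [e4, e5] at h3
      have h6 : nu * ((Real.log (Real.Gamma (1 + 2 * nu)) - Real.log (Real.Gamma (1 + nu))) *
          ((d : ℝ) - 1)) ≤ nu * (Real.log (Real.Gamma (1 + d * nu)) -
          Real.log (Real.Gamma (1 + nu))) := by
        nlinarith [h3]
      exact le_of_mul_le_mul_left h6 hnu0
    · rw [← h1]
      simp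
  rw [hint, Finset.prod_const, Finset.card_univ, Fintype.card_fin, ← Real.rpow_natCast]
  have h7 : mom nu ^ (d : ℝ) = mom nu * (2 ^ (-(nu * ((d : ℝ) - 1))) *
      (Real.Gamma (1 + 2 * nu) / Real.Gamma (1 + nu)) ^ ((d : ℝ) - 1)) := by
    have h8 : (d : ℝ) = 1 + ((d : ℝ) - 1) := by ring
    conv_lhs => rw [h8, Real.rpow_add hmpos, Real.rpow_one]
    congr 1
    conv_lhs => rw [hm2]
    rw [Real.mul_rpow (by positivity) (by positivity), ← Real.rpow_mul two_pos.le]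
    congr 2
    ring
  have h9 : (2 / 2 ^ d : ℝ) ^ (2 * nu) * ((2 ^ (d * nu) * Real.Gamma (1 + d * nu)) * C)
      = mom nu * (2 ^ (-(nu * ((d : ℝ) - 1))) *
        (Real.Gamma (1 + d * nu) / Real.Gamma (1 + nu))) := by
    have h10 : (2 / 2 ^ d : ℝ) = 2 ^ (1 - (d : ℝ)) := by
      rw [Real.rpow_sub two_pos, Real.rpow_one, Real.rpow_natCast]
    have h11 : C = mom nu / (2 ^ nu * Real.Gamma (1 + nu)) := by
      rw [eq_div_iff (by positivity), hmomC]
      ring
    have h12 : (2 : ℝ) ^ (-(nu * ((d : ℝ) - 1)))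
        = 2 ^ ((1 - (d : ℝ)) * (2 * nu)) * 2 ^ (d * nu) / 2 ^ nu := by
      rw [← Real.rpow_add two_pos, ← Real.rpow_sub two_pos]
      congr 1
      ring
    rw [h10, ← Real.rpow_mul two_pos.le, h11, h12]
    field_simp
  rw [h7, h9]
  exact mul_le_mul_of_nonneg_left (mul_le_mul_of_nonneg_left hgam (by positivity)) hmpos.le

end Pool.Agent.W2helper31.GP
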