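import Mathlib
import Pool.Agent.W2helper31.GP.Planar

set_option autoImplicit false

/-!
# The Gaussian product inequality for planar vectors and equal exponents: final form
-/

open MeasureTheory ProbabilityTheory
open scoped ENNReal NNReal

namespace Pool.Agent.W2helper31.GP

theorem core4 (hS : P_SCAL) (hM : P_MARG) (hK : P_KAP) (hMom : P_MOM)
    (hRm : P_RMOM) (hI : P_IND) (hRot : P_ROT) (hAlg : P_ALG) (hAng : P_ANG) (d : ℕ)
    (b : Fin d → Fin 2 → ℝ) (nu : ℝ) (hnu : 1 / 2 ≤ nu) :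
    ∏ i, ∫ x, |lf (b i) x| ^ (2 * nu) ∂(Gam 2) ≤ ∫ x, Pr b (fun _ => nu) x ∂(Gam 2) := by
  rcases Nat.eq_zero_or_pos d with rfl | hd
  · simp [Pr]
  by_cases hbad : ∃ i, (∑ j, b i j ^ 2 = 0) ∧ nu ≠ 0
  · obtain ⟨i, hi, hi0⟩ := hbad
    have hbi : ∀ j, b i j = 0 := by
      intro j
      have := (Finset.sum_eq_zero_iff_of_nonneg (fun j _ => sq_nonneg (b i j))).1 hi j
        (Finset.mem_univ j)
      exact pow_eq_zero_iff (two_ne_zero) |>.1 this
    have h1 : ∫ x, |lf (b i) x| ^ (2 * nu) ∂(Gam 2) = 0 := by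
      have : ∀ x, |lf (b i) x| ^ (2 * nu) = 0 := by
        intro x
        have : lf (b i) x = 0 := by simp [lf, hbi]
        rw [this, abs_zero, Real.zero_rpow (by simpa using hi0)]
      simp [this]
    rw [Finset.prod_eq_zero (Finset.mem_univ i) h1]
    exact integral_nonneg (Pr_nonneg b _)
  · push Not at hbad
    -- normalisation
    have hunit : ∀ i, ∃ (c : ℝ) (u : Fin 2 → ℝ), 0 < c ∧ ∑ j, u j ^ 2 = 1 ∧
        ∀ x, |lf (b i) x| ^ (2 * nu) = c ^ (2 * nu) * |lf u x| ^ (2 * nu) := by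
      intro i
      by_cases hi : ∑ j, b i j ^ 2 = 0
      · exfalso
        have := hbad i hi
        linarith
      · have hp : 0 < ∑ j, b i j ^ 2 :=
          lt_of_le_of_ne (Finset.sum_nonneg (fun _ _ => sq_nonneg _)) (Ne.symm hi)
        set c := Real.sqrt (∑ j, b i j ^ 2) with hc
        have hc0 : 0 < c := Real.sqrt_pos.2 hp
        have hc2 : c ^ 2 = ∑ j, b i j ^ 2 := Real.sq_sqrt hp.le
        refine ⟨c, fun j => b i j / c, hc0, ?_, ?_⟩
        · simp only [div_pow]
          rw [← Finset.sum_div, ← hc2]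
          exact div_self (by positivity)
        · intro x
          have h1 : lf (b i) x = c * lf (fun j => b i j / c) x := by
            unfold lf
            rw [Finset.mul_sum]
            refine Finset.sum_congr rfl (fun j _ => ?_)
            field_simp
          rw [h1, abs_mul, abs_of_pos hc0, Real.mul_rpow hc0.le (abs_nonneg _)]
    choose c u hc hu hlu using hunit
    have h1 : ∀ i, ∫ x, |lf (b i) x| ^ (2 * nu) ∂(Gam 2) = c i ^ (2 * nu) * mom (nu) := by
      intro i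
      simp only [hlu i]
      rw [integral_const_mul, mom_lf hM (u i) (hu i)]
    have h2 : ∀ x, Pr b (fun _ => nu) x = (∏ i, c i ^ (2 * nu)) * Pr u (fun _ => nu) x := by
      intro x
      unfold Pr
      rw [← Finset.prod_mul_distrib]
      exact Finset.prod_congr rfl (fun i _ => hlu i x)
    simp only [h1, h2]
    rw [Finset.prod_mul_distrib, integral_const_mul]
    exact mul_le_mul_of_nonneg_left (planar_unit hS hM hK hMom hRm hI hRot hAlg hAng hd u hu nu hnu)
      (Finset.prod_nonneg (fun i _ => Real.rpow_nonneg (hc i).le _))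

theorem final4 (hS : P_SCAL) (hM : P_MARG) (hK : P_KAP) (hMom : P_MOM)
    (hRm : P_RMOM) (hI : P_IND) (hRot : P_ROT) (hAlg : P_ALG) (hAng : P_ANG) (hR : P_REP) (d : ℕ)
    (mu : Measure (Fin d → ℝ)) (hmu : IsGaussian mu) (h0 : ∫ x, x ∂mu = 0)
    (hr : (Matrix.of fun i k : Fin d => ∫ x, x i * x k ∂mu).rank ≤ 2)
    (nu : ℝ) (hnu : 1 / 2 ≤ nu) :
    ∏ i : Fin d, ∫ x, |x i| ^ (2 * nu) ∂mu ≤ ∫ x, ∏ i : Fin d, |x i| ^ (2 * nu) ∂mu := by
  obtain ⟨b, hb⟩ := hR d 2 mu hmu h0 hr
  have hT : Measurable (fun (x : Fin 2 → ℝ) (i : Fin d) => ∑ j, b i j * x j) := by fun_prop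
  have h1 : ∀ i : Fin d, ∫ x, |x i| ^ (2 * nu) ∂mu = ∫ x, |lf (b i) x| ^ (2 * nu) ∂(Gam 2) := by
    intro i
    rw [hb, integral_map hT.aemeasurable]
    · rfl
    · exact ((measurable_pi_apply i).abs.pow_const _).aestronglyMeasurable
  have h2 : ∫ x, ∏ i : Fin d, |x i| ^ (2 * nu) ∂mu = ∫ x, Pr b (fun _ => nu) x ∂(Gam 2) := by
    rw [hb, integral_map hT.aemeasurable]
    · rfl
    · exact (Finset.measurable_prod _
        (fun i _ => (measurable_pi_apply i).abs.pow_const _)).aestronglyMeasurable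
  simp only [h1]
  rw [h2]
  exact core4 hS hM hK hMom hRm hI hRot hAlg hAng d b nu hnu

end Pool.Agent.W2helper31.GP
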