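import Pool.Agent.W2helper31.GP.Stm4

set_option autoImplicit false

/-!
# Project GP5 (MP_130bb2_pr), planar vectors, equal exponents `nu < 1/2`: statements

Idea for `d = 3`, `p = 2 nu ≤ 1`: Jensen's inequality for the tilted law `(1 + p φ) dθ / 2 π` with a
trigonometric polynomial `φ` adapted to the three directions gives
`E ∏ |2 cos (θ - a i)|^p ≥ 1 + (91/1000) p^2`, and the Gamma quotient needed is below that.
-/

open MeasureTheory ProbabilityTheory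
open scoped ENNReal NNReal

namespace Pool.Agent.W2helper31.GP

/-- PIECE ANG2: polar coordinates, generalisation of `Pool.Agent.W2helper71.GP.p_ang` (same proof). -/
def P_ANG2 : Prop :=
  ∀ (f : (Fin 2 → ℝ) → ℝ) (M : ℝ), Measurable f →
    (∀ (t : ℝ) (x : Fin 2 → ℝ), 0 < t → f (t • x) = t ^ (2 * M) * f x) →
    ∫ x, f x * (∑ j, x j ^ 2) ^ (-M) ∂(Gam 2)
      = 1 / (2 * Real.pi) * ∫ θ in (-Real.pi)..Real.pi, f ![Real.cos θ, Real.sin θ]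

/-- PIECE GAM3. Proof: Euler's limit (`Real.GammaSeq`, `Real.GammaSeq_tendsto_Gamma`, or
`Real.BohrMollerup`) gives `Γ(1+p)^3 / (Γ(1+p/2)^3 Γ(1+3p/2)) = lim_N ∏_{n=1}^N q (p/n)` with
`q t = (1+t/2)^3 (1+3t/2) / (1+t)^3 = 1 + (t^3/4) (1 + 3t/4) / (1+t)^3`. Each factor is at most
`exp (h_n p^2)` with `h_n = (p/4) (n + 3p/4) / (n (n+p)^3)`; `h_1 ≤ 56/1000` and for `n ≥ 2`
`h_n ≤ (1/4)(n+3/4)/(n (n+1)^3) ≤ (11/32) / (n (n+1) (n+2))` (telescoping, sum over `n ≥ 2` is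
`(11/32)/12 ≤ 29/1000`). So the quotient is `≤ exp (85/1000 p^2) ≤ 1 + 91/1000 p^2`. -/
def P_GAM3 : Prop :=
  ∀ p : ℝ, 0 < p → p ≤ 1 →
    Real.Gamma (1 + p) ^ 3 ≤
      (1 + 91 / 1000 * p ^ 2) * (Real.Gamma (1 + p / 2) ^ 3 * Real.Gamma (1 + 3 * p / 2))

/-- PIECE FC0. Mathlib: `integral_log_sin_zero_pi`, periodicity; `intervalIntegrable` of
`log |2 cos (θ - a)|` e.g. by `intervalIntegrable_log_sin` / `MeromorphicOn` API. -/
def P_FC0 : Prop :=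
  ∀ a : ℝ, IntervalIntegrable (fun θ => Real.log |2 * Real.cos (θ - a)|) volume (-Real.pi) Real.pi ∧
    ∫ θ in (-Real.pi)..Real.pi, Real.log |2 * Real.cos (θ - a)| = 0

/-- PIECE FC. By periodicity reduce to `a = 0`; for `k = 1, 3` the function
`sin (2kθ) log |2 cos θ| / (2k) + (trig polynomial antiderivative of sin (2kθ) tan θ / (2k))` is continuous
everywhere (`sin (2kθ)` is `cos θ` times a polynomial, `Real.continuous_mul_log`) and an antiderivative of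
`cos (2kθ) log |2 cos θ|` off the zeros of `cos` (`MeasureTheory.integral_eq_of_hasDerivAt_off_countable`-type
FTC, countable exceptional set); `sin 2θ tan θ = 1 - cos 2θ`,
`sin 6θ tan θ = 1 - 2 cos 2θ + 2 cos 4θ - cos 6θ`; the sine coefficients vanish by symmetry. -/
def P_FC : Prop :=
  ∀ a g : ℝ,
    ∫ θ in (-Real.pi)..Real.pi, Real.log |2 * Real.cos (θ - a)| * Real.cos (2 * θ - g)
      = Real.pi * Real.cos (2 * a - g) ∧
    ∫ θ in (-Real.pi)..Real.pi, Real.log |2 * Real.cos (θ - a)| * Real.cos (6 * θ - g)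
      = Real.pi / 3 * Real.cos (6 * a - g)

/-- PIECE ALG3. With `z i = exp (2 a i I)`, `S = ∑ z i`, `s = ‖S‖`, `g1 = arg S`: `∑ cos (2 a i - g1) = s`;
Newton: `∑ z i ^ 3 = S^3 - 3 e1 e2 + 3 e3`, `e2 = e3 * conj e1`, so `‖∑ z i ^ 3‖ ≥ 3 (1 - s^2) - s^3`;
`g3 = arg (∑ z i ^ 3)`. -/
def P_ALG3 : Prop :=
  ∀ a : Fin 3 → ℝ, ∃ g1 g3 s : ℝ, 0 ≤ s ∧ ∑ i, Real.cos (2 * a i - g1) = s ∧
    0 ≤ ∑ i, Real.cos (6 * a i - g3) ∧ 3 - 3 * s ^ 2 - s ^ 3 ≤ ∑ i, Real.cos (6 * a i - g3)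

/-- PIECE TAN. `u = p φ`, `z = p log x`: `exp z ≥ (1+u) (1 + z - log (1+u))`, and
`(1+u) log (1+u) ≤ u + (2/3) u^2` for `|u| ≤ 1/2` (`log (1+u) ≤ u - u^2/2 + u^3/3`). -/
def P_TAN : Prop :=
  ∀ p f x : ℝ, 0 < p → p ≤ 1 → |f| ≤ 1 / 2 → 0 < x →
    1 + p * Real.log x + p ^ 2 * (f * Real.log x - 2 / 3 * f ^ 2) ≤ x ^ p

/-- PIECE TRIG3 (assembly from FC0, FC, ALG3, TAN). `f θ = A1 cos (2 θ - g1) + A3 cos (6 θ - g3)`,
`(A1, A3) = (1/5, 3/10)` if `s ≤ 3/5` and `(7/20, 3/20)` if `s ≥ 3/5`; `x = ∏ |2 cos (θ - a i)|`, a.e. positive;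
mean of the left side of TAN: `1 + p^2 (A1 s/2 + A3 S3/6 - (A1^2 + A3^2)/3)`. -/
def P_TRIG3 : Prop :=
  ∀ (a : Fin 3 → ℝ) (p : ℝ), 0 < p → p ≤ 1 →
    1 + 91 / 1000 * p ^ 2 ≤
      1 / (2 * Real.pi) * ∫ θ in (-Real.pi)..Real.pi, (∏ i, |2 * Real.cos (θ - a i)|) ^ p

/-- PIECE TWO (classical, dimension two, any exponent). Proof: by rotation (`P_ROT`, proved in
`Pool.Agent.W2helper82.GP.Rot`) `b 0 = e_0`, `b 1 = (c, s)`; `Gam 2` is a product; `h z = E |c z + s W|^(2 nu)`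
is nondecreasing in `|z|` (fold the integral at the midpoint of the two shifts), and
`E f(|Z|) h(|Z|) ≥ E f E h` for nondecreasing `f`, `h` (double integral of `(f x - f y) (h x - h y) ≥ 0`). -/
def P_TWO : Prop :=
  ∀ (b : Fin 2 → Fin 2 → ℝ) (nu : ℝ), (∀ i, ∑ j, b i j ^ 2 = 1) → 0 < nu → nu ≤ 1 / 2 →
    (∫ x, |x| ^ (2 * nu) ∂(gaussianReal 0 1)) * (∫ x, |x| ^ (2 * nu) ∂(gaussianReal 0 1)) ≤
      ∫ x : Fin 2 → ℝ, |∑ j, b 0 j * x j| ^ (2 * nu) * |∑ j, b 1 j * x j| ^ (2 * nu) ∂(Gam 2)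

end Pool.Agent.W2helper31.GP
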