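import Mathlib
import Pool.Agent.W2helper31.GP.Planar
import Pool.Agent.W2helper31.GP.Stm5

set_option autoImplicit false

/-!
# The Gaussian product inequality for planar vectors and equal exponents: small exponents
-/

open MeasureTheory ProbabilityTheory
open scoped ENNReal NNReal

namespace Pool.Agent.W2helper31.GP

theorem mom_val (hMom : P_MOM) (nu : ℝ) (hnu0 : 0 < nu) :
    mom nu = 2 ^ (-nu) * (Real.Gamma (1 + 2 * nu) / Real.Gamma (1 + nu)) := by
  have hG1 : 0 < Real.Gamma (1 + nu) := Real.Gamma_pos_of_pos (by positivity)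
  have hm : mom nu = 2 ^ nu * Real.Gamma (1 / 2 + nu) / Real.sqrt Real.pi := by
    unfold mom
    rw [(hMom (2 * nu) (by linarith)).2]
    congr 2
    · congr 1
      ring
    · congr 1
      ring
  have hdup := Real.Gamma_mul_Gamma_add_half (1 / 2 + nu)
  have e1 : 1 / 2 + nu + 1 / 2 = 1 + nu := by ring
  have e2 : 2 * (1 / 2 + nu) = 1 + 2 * nu := by ring
  have e3 : 1 - (1 + 2 * nu) = -(2 * nu) := by ring
  rw [e1, e2, e3] at hdup
  have hpi : 0 < Real.sqrt Real.pi := Real.sqrt_pos.2 Real.pi_pos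
  have h4 : Real.Gamma (1 / 2 + nu) = Real.Gamma (1 + 2 * nu) * 2 ^ (-(2 * nu)) *
      Real.sqrt Real.pi / Real.Gamma (1 + nu) := by
    rw [eq_div_iff hG1.ne']
    exact hdup
  have h5 : (2 : ℝ) ^ (-nu) = 2 ^ nu * 2 ^ (-(2 * nu)) := by
    rw [← Real.rpow_add two_pos]
    congr 1
    ring
  rw [hm, h4, h5]
  field_simp

theorem lf_cs (b : Fin 2 → ℝ) (hb : ∑ j, b j ^ 2 = 1) (θ : ℝ) :
    lf b ![Real.cos θ, Real.sin θ] = Real.cos (θ - (toC b).arg) := by
  have h1 : ‖toC b‖ = 1 := by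
    have h2 : ‖toC b‖ ^ 2 = 1 := by
      rw [← Complex.normSq_eq_norm_sq, Complex.normSq_apply]
      rw [Fin.sum_univ_two] at hb
      simp only [toC]
      linarith
    nlinarith [norm_nonneg (toC b)]
  have h2 := Complex.norm_mul_cos_arg (toC b)
  have h3 := Complex.norm_mul_sin_arg (toC b)
  rw [h1, one_mul] at h2 h3
  rw [Real.cos_sub, h2, h3]
  simp [lf, toC, Fin.sum_univ_two]
  ring

theorem unit3 (hS : P_SCAL) (hMom : P_MOM) (hR : P_RMOM) (hI : P_IND) (hA2 : P_ANG2)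
    (hG3 : P_GAM3) (hT3 : P_TRIG3) (b : Fin 3 → Fin 2 → ℝ) (hb : ∀ i, ∑ j, b i j ^ 2 = 1)
    (nu : ℝ) (hnu0 : 0 < nu) (hnu : nu ≤ 1 / 2) :
    ∏ _i : Fin 3, mom nu ≤ ∫ x, Pr b (fun _ => nu) x ∂(Gam 2) := by
  have hG1 : 0 < Real.Gamma (1 + nu) := Real.Gamma_pos_of_pos (by positivity)
  have hG2 : 0 < Real.Gamma (1 + 2 * nu) := Real.Gamma_pos_of_pos (by positivity)
  have hG3' : 0 < Real.Gamma (1 + 3 * nu) := Real.Gamma_pos_of_pos (by positivity)
  have hhom : ∀ (t : ℝ) (x : Fin 2 → ℝ), 0 < t →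
      Pr b (fun _ => nu) (t • x) = t ^ (2 * (3 * nu)) * Pr b (fun _ => nu) x := by
    intro t x ht
    rw [← Pr_eq, ← Pr_eq]
    have h1 : ∀ i, |lf (b i) (t • x)| = t * |lf (b i) x| := by
      intro i
      have : lf (b i) (t • x) = t * lf (b i) x := by
        simp only [lf, Pi.smul_apply, smul_eq_mul, Finset.mul_sum]
        exact Finset.sum_congr rfl (fun j _ => by ring)
      rw [this, abs_mul, abs_of_pos ht]
    simp only [h1]
    rw [Finset.prod_mul_distrib, Finset.prod_const, Finset.card_univ, Fintype.card_fin,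
      Real.mul_rpow (by positivity) (Finset.prod_nonneg (fun _ _ => abs_nonneg _))]
    congr 1
    rw [← Real.rpow_natCast, ← Real.rpow_mul ht.le]
    congr 1
    push_cast
    ring
  have hfac := fac hS hR hI (3 * nu) (by positivity) (Pr b (fun _ => nu)) (Pr_meas b _)
    (Pr_nonneg b _) (by
      intro t x ht
      rw [hhom _ x (Real.sqrt_pos.2 ht), Real.sqrt_eq_rpow, ← Real.rpow_mul ht.le]
      congr 2
      ring)
  rw [hfac, hA2 (Pr b (fun _ => nu)) (3 * nu) (Pr_meas b _) hhom]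
  have hval : ∀ θ : ℝ, Pr b (fun _ => nu) ![Real.cos θ, Real.sin θ]
      = 2 ^ (-(6 * nu)) * (∏ i, |2 * Real.cos (θ - (toC (b i)).arg)|) ^ (2 * nu) := by
    intro θ
    rw [← Pr_eq]
    simp only [lf_cs (b _) (hb _), abs_mul]
    rw [Finset.prod_mul_distrib, Finset.prod_const, Finset.card_univ, Fintype.card_fin,
      Real.mul_rpow (by positivity) (Finset.prod_nonneg (fun _ _ => abs_nonneg _)), ← mul_assoc]
    have : (2 : ℝ) ^ (-(6 * nu)) * (|2| ^ 3) ^ (2 * nu) = 1 := by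
      rw [abs_of_pos two_pos, ← Real.rpow_natCast, ← Real.rpow_mul two_pos.le,
        ← Real.rpow_add two_pos]
      have : -(6 * nu) + ((3 : ℕ) : ℝ) * (2 * nu) = 0 := by push_cast; ring
      rw [this, Real.rpow_zero]
    rw [this, one_mul]
  simp only [hval]
  rw [intervalIntegral.integral_const_mul]
  have hT := hT3 (fun i => (toC (b i)).arg) (2 * nu) (by positivity) (by linarith)
  have hG := hG3 (2 * nu) (by positivity) (by linarith)
  have e1 : 2 * nu / 2 = nu := by ring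
  have e2 : 3 * (2 * nu) / 2 = 3 * nu := by ring
  rw [e1, e2] at hG
  set J : ℝ := ∫ θ in (-Real.pi)..Real.pi,
    (∏ i, |2 * Real.cos (θ - (toC (b i)).arg)|) ^ (2 * nu) with hJ
  rw [Finset.prod_const, Finset.card_univ, Fintype.card_fin, mom_val hMom nu hnu0]
  have h1 : (2 ^ (-nu) * (Real.Gamma (1 + 2 * nu) / Real.Gamma (1 + nu))) ^ 3
      = 2 ^ (-(3 * nu)) * (Real.Gamma (1 + 2 * nu) ^ 3 / Real.Gamma (1 + nu) ^ 3) := by
    rw [mul_pow, div_pow]
    congr 1
    rw [← Real.rpow_natCast, ← Real.rpow_mul two_pos.le]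
    congr 1
    push_cast
    ring
  have h2 : 2 ^ (3 * nu) * Real.Gamma (1 + 3 * nu) * (1 / (2 * Real.pi) * (2 ^ (-(6 * nu)) * J))
      = 2 ^ (-(3 * nu)) * (Real.Gamma (1 + 3 * nu) * (1 / (2 * Real.pi) * J)) := by
    have h3 : (2 : ℝ) ^ (-(3 * nu)) = 2 ^ (3 * nu) * 2 ^ (-(6 * nu)) := by
      rw [← Real.rpow_add two_pos]
      congr 1
      ring
    rw [h3]
    ring
  rw [h1, h2]
  refine mul_le_mul_of_nonneg_left ?_ (by positivity)
  rw [div_le_iff₀ (by positivity)]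
  calc Real.Gamma (1 + 2 * nu) ^ 3
      ≤ (1 + 91 / 1000 * (2 * nu) ^ 2) *
        (Real.Gamma (1 + nu) ^ 3 * Real.Gamma (1 + 3 * nu)) := hG
    _ ≤ (1 / (2 * Real.pi) * J) * (Real.Gamma (1 + nu) ^ 3 * Real.Gamma (1 + 3 * nu)) :=
        mul_le_mul_of_nonneg_right hT (by positivity)
    _ = Real.Gamma (1 + 3 * nu) * (1 / (2 * Real.pi) * J) * Real.Gamma (1 + nu) ^ 3 := by ring

/-- normalisation -/
theorem core_of_unit (hM : P_MARG) (d : ℕ) (b : Fin d → Fin 2 → ℝ) (nu : ℝ) (hnu : 0 < nu)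
    (hU : ∀ u : Fin d → Fin 2 → ℝ, (∀ i, ∑ j, u i j ^ 2 = 1) →
      ∏ _i : Fin d, mom nu ≤ ∫ x, Pr u (fun _ => nu) x ∂(Gam 2)) :
    ∏ i, ∫ x, |lf (b i) x| ^ (2 * nu) ∂(Gam 2) ≤ ∫ x, Pr b (fun _ => nu) x ∂(Gam 2) := by
  by_cases hbad : ∃ i, (∑ j, b i j ^ 2 = 0) ∧ nu ≠ 0
  · obtain ⟨i, hi, hi0⟩ := hbad
    have hbi : ∀ j, b i j = 0 := by
      intro j
      have := (Finset.sum_eq_zero_iff_of_nonneg (fun j _ => sq_nonneg (b i j))).1 hi j
        (Finset.mem_univ j)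
      exact pow_eq_zero_iff (two_ne_zero) |>.1 this
    have h1 : ∫ x, |lf (b i) x| ^ (2 * nu) ∂(Gam 2) = 0 := by
      have : ∀ x, |lf (b i) x| ^ (2 * nu) = 0 := by
        intro x
        have : lf (b i) x = 0 := by simp [lf, hbi]
        rw [this, abs_zero, Real.zero_rpow (by simpa using hi0)]
      simp [this]
    rw [Finset.prod_eq_zero (Finset.mem_univ i) h1]
    exact integral_nonneg (Pr_nonneg b _)
  · push Not at hbad
    -- normalisation
    have hunit : ∀ i, ∃ (c : ℝ) (u : Fin 2 → ℝ), 0 < c ∧ ∑ j, u j ^ 2 = 1 ∧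
        ∀ x, |lf (b i) x| ^ (2 * nu) = c ^ (2 * nu) * |lf u x| ^ (2 * nu) := by
      intro i
      by_cases hi : ∑ j, b i j ^ 2 = 0
      · exfalso
        have := hbad i hi
        linarith
      · have hp : 0 < ∑ j, b i j ^ 2 :=
          lt_of_le_of_ne (Finset.sum_nonneg (fun _ _ => sq_nonneg _)) (Ne.symm hi)
        set c := Real.sqrt (∑ j, b i j ^ 2) with hc
        have hc0 : 0 < c := Real.sqrt_pos.2 hp
        have hc2 : c ^ 2 = ∑ j, b i j ^ 2 := Real.sq_sqrt hp.le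
        refine ⟨c, fun j => b i j / c, hc0, ?_, ?_⟩
        · simp only [div_pow]
          rw [← Finset.sum_div, ← hc2]
          exact div_self (by positivity)
        · intro x
          have h1 : lf (b i) x = c * lf (fun j => b i j / c) x := by
            unfold lf
            rw [Finset.mul_sum]
            refine Finset.sum_congr rfl (fun j _ => ?_)
            field_simp
          rw [h1, abs_mul, abs_of_pos hc0, Real.mul_rpow hc0.le (abs_nonneg _)]
    choose c u hc hu hlu using hunit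
    have h1 : ∀ i, ∫ x, |lf (b i) x| ^ (2 * nu) ∂(Gam 2) = c i ^ (2 * nu) * mom (nu) := by
      intro i
      simp only [hlu i]
      rw [integral_const_mul, mom_lf hM (u i) (hu i)]
    have h2 : ∀ x, Pr b (fun _ => nu) x = (∏ i, c i ^ (2 * nu)) * Pr u (fun _ => nu) x := by
      intro x
      unfold Pr
      rw [← Finset.prod_mul_distrib]
      exact Finset.prod_congr rfl (fun i _ => hlu i x)
    simp only [h1, h2]
    rw [Finset.prod_mul_distrib, integral_const_mul]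
    exact mul_le_mul_of_nonneg_left (hU u hu)
      (Finset.prod_nonneg (fun i _ => Real.rpow_nonneg (hc i).le _))

theorem core5 (hS : P_SCAL) (hM : P_MARG) (hMom : P_MOM) (hR : P_RMOM) (hI : P_IND)
    (hA2 : P_ANG2) (hG3 : P_GAM3) (hT3 : P_TRIG3) (h2 : P_TWO) (d : ℕ) (hd : d < 4)
    (b : Fin d → Fin 2 → ℝ) (nu : ℝ) (hnu0 : 0 < nu) (hnu : nu ≤ 1 / 2) :
    ∏ i, ∫ x, |lf (b i) x| ^ (2 * nu) ∂(Gam 2) ≤ ∫ x, Pr b (fun _ => nu) x ∂(Gam 2) := by
  have hcase : d = 0 ∨ d = 1 ∨ d = 2 ∨ d = 3 := by omega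
  rcases hcase with rfl | rfl | rfl | rfl
  · have hp : IsProbabilityMeasure (Gam 2) := by
      unfold Gam
      infer_instance
    simp [Pr]
  · refine le_of_eq ?_
    simp [Pr]
  · refine core_of_unit hM 2 b nu hnu0 (fun u hu => ?_)
    rw [Finset.prod_const, Finset.card_univ, Fintype.card_fin, pow_two]
    refine le_trans (h2 u nu hu hnu0 hnu) (le_of_eq ?_)
    refine integral_congr_ae (Filter.Eventually.of_forall (fun x => ?_))
    simp [Pr, lf, Fin.prod_univ_two]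
  · exact core_of_unit hM 3 b nu hnu0 (fun u hu =>
      unit3 hS hMom hR hI hA2 hG3 hT3 u hu nu hnu0 hnu)

theorem final5 (hS : P_SCAL) (hM : P_MARG) (hMom : P_MOM) (hRm : P_RMOM) (hI : P_IND)
    (hA2 : P_ANG2) (hG3 : P_GAM3) (hT3 : P_TRIG3) (h2 : P_TWO) (hR : P_REP) (d : ℕ) (hd : d < 4)
    (mu : Measure (Fin d → ℝ)) (hmu : IsGaussian mu) (h0 : ∫ x, x ∂mu = 0)
    (hr : (Matrix.of fun i k : Fin d => ∫ x, x i * x k ∂mu).rank ≤ 2)
    (nu : ℝ) (hnu0 : 0 ≤ nu) (hnu : nu ≤ 1 / 2) :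
    ∏ i : Fin d, ∫ x, |x i| ^ (2 * nu) ∂mu ≤ ∫ x, ∏ i : Fin d, |x i| ^ (2 * nu) ∂mu := by
  rcases hnu0.eq_or_lt with rfl | hpos
  · have hp : IsProbabilityMeasure mu := hmu.toIsProbabilityMeasure
    simp
  obtain ⟨b, hb⟩ := hR d 2 mu hmu h0 hr
  have hT : Measurable (fun (x : Fin 2 → ℝ) (i : Fin d) => ∑ j, b i j * x j) := by fun_prop
  have h1 : ∀ i : Fin d, ∫ x, |x i| ^ (2 * nu) ∂mu = ∫ x, |lf (b i) x| ^ (2 * nu) ∂(Gam 2) := by
    intro i
    rw [hb, integral_map hT.aemeasurable]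
    · rfl
    · exact ((measurable_pi_apply i).abs.pow_const _).aestronglyMeasurable
  have h2' : ∫ x, ∏ i : Fin d, |x i| ^ (2 * nu) ∂mu = ∫ x, Pr b (fun _ => nu) x ∂(Gam 2) := by
    rw [hb, integral_map hT.aemeasurable]
    · rfl
    · exact (Finset.measurable_prod _
        (fun i _ => (measurable_pi_apply i).abs.pow_const _)).aestronglyMeasurable
  simp only [h1]
  rw [h2']
  exact core5 hS hM hMom hRm hI hA2 hG3 hT3 h2 d hd b nu hpos hnu

end Pool.Agent.W2helper31.GP
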