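import Pool.Agent.W2helper31.GP.Planar

set_option autoImplicit false

open MeasureTheory ProbabilityTheory Complex WithLp
open scoped ENNReal NNReal RealInnerProductSpace

namespace Pool.Agent.W2helper31.GP

theorem inner_rot (f : ℝ) (x t : Fin 2 → ℝ) :
    inner ℝ (toLp 2 (rot f x) : EuclideanSpace ℝ (Fin 2)) (toLp 2 t)
      = inner ℝ (toLp 2 x : EuclideanSpace ℝ (Fin 2)) (toLp 2 (rot (-f) t)) := by
  simp [PiLp.inner_apply, Fin.sum_univ_two, rot]
  ring

theorem norm_rot (f : ℝ) (t : Fin 2 → ℝ) :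
    ‖(toLp 2 (rot f t) : EuclideanSpace ℝ (Fin 2))‖ ^ 2
      = ‖(toLp 2 t : EuclideanSpace ℝ (Fin 2))‖ ^ 2 := by
  rw [EuclideanSpace.real_norm_sq_eq, EuclideanSpace.real_norm_sq_eq]
  simp [Fin.sum_univ_two, rot]
  nlinarith [Real.sin_sq_add_cos_sq f]

theorem rotB : P_ROT := by
  intro f
  have hm : Measurable (toLp 2 : (Fin 2 → ℝ) → EuclideanSpace ℝ (Fin 2)) := by fun_prop
  have hstd : (Gam 2).map (toLp 2) = stdGaussian (EuclideanSpace ℝ (Fin 2)) := by
    unfold Gam
    exact map_pi_eq_stdGaussian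
  have hE : ((Gam 2).map (rot f)).map (toLp 2) = (Gam 2).map (toLp 2) := by
    apply Measure.ext_of_charFun (E := EuclideanSpace ℝ (Fin 2))
    ext t
    have h1 : charFun (((Gam 2).map (rot f)).map (toLp 2)) t
        = charFun ((Gam 2).map (toLp 2)) (toLp 2 (rot (-f) (ofLp t))) := by
      rw [charFun_apply, charFun_apply, Measure.map_map hm (rot_meas f),
        integral_map (hm.comp (rot_meas f)).aemeasurable (by fun_prop),
        integral_map hm.aemeasurable (by fun_prop)]
      refine integral_congr_ae (Filter.Eventually.of_forall (fun x => ?_))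
      simp only [Function.comp_apply]
      rw [← inner_rot f x (ofLp t)]
    rw [h1, hstd, charFun_stdGaussian, charFun_stdGaussian]
    congr 3
    exact_mod_cast norm_rot (-f) (ofLp t)
  have h2 : ∀ m : Measure (Fin 2 → ℝ), (m.map (toLp 2 : (Fin 2 → ℝ) →
      EuclideanSpace ℝ (Fin 2))).map ofLp = m := by
    intro m
    rw [Measure.map_map (by fun_prop) hm]
    have : (ofLp ∘ (toLp 2 : (Fin 2 → ℝ) → EuclideanSpace ℝ (Fin 2))) = id := by
      funext x
      rfl
    rw [this, Measure.map_id]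
  rw [← h2 ((Gam 2).map (rot f)), hE, h2]

end Pool.Agent.W2helper31.GP
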